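import Mathlib

/-!
Sets of radii of finite measure, and Borel's growth lemma.
-/

set_option autoImplicit false

namespace Pool.Agent.Helper4K9.AP

open MeasureTheory Set Filter Topology
open scoped ENNReal

/-- properties of the radii `r ≥ 1` outside a set of finite Lebesgue measure -/
noncomputable def cofin : Filter ℝ := (volume.restrict (Ici (1 : ℝ))).cofinite

theorem cofin_iff {p : ℝ → Prop} :
    (∀ᶠ r in cofin, p r) ↔ volume ({r | ¬ p r} ∩ Ici 1) < ∞ := by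
  unfold cofin
  rw [Measure.eventually_cofinite, Measure.restrict_apply' measurableSet_Ici]

theorem cofin_near {p : ℝ → Prop} (h : ∀ᶠ r in cofin, p r) :
    ∃ R0 : ℝ, 1 ≤ R0 ∧ ∀ r, R0 ≤ r → ∃ s ∈ Icc r (r + 1), p s := by
  rw [cofin_iff] at h
  obtain ⟨t, ht, htm, hv⟩ := exists_measurable_superset volume ({r | ¬ p r} ∩ Ici 1)
  have hfin : volume t ≠ ∞ := by
    rw [hv]
    exact h.ne
  have h1 : Tendsto (fun n : ℕ => volume (t ∩ Ici (n : ℝ))) atTop
      (𝓝 (volume (⋂ n : ℕ, t ∩ Ici (n : ℝ)))) := by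
    apply tendsto_measure_iInter_atTop
    · exact fun n => (htm.inter measurableSet_Ici).nullMeasurableSet
    · intro m n hmn
      exact inter_subset_inter_right _ (Ici_subset_Ici.2 (by exact_mod_cast hmn))
    · exact ⟨0, ((measure_mono inter_subset_left).trans_lt hfin.lt_top).ne⟩
  have h2 : (⋂ n : ℕ, t ∩ Ici (n : ℝ)) = ∅ := by
    ext x
    simp only [mem_iInter, mem_inter_iff, mem_Ici, mem_empty_iff_false, iff_false, not_forall]
    obtain ⟨n, hn⟩ := exists_nat_gt x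
    exact ⟨n, fun h3 => absurd h3.2 (not_le.2 hn)⟩
  rw [h2, measure_empty] at h1
  obtain ⟨n, hn⟩ := (h1.eventually (gt_mem_nhds (show (0 : ℝ≥0∞) < 1 from zero_lt_one))).exists
  refine ⟨max n 1, le_max_right _ _, fun r hr => ?_⟩
  by_contra hcon
  push Not at hcon
  have h3 : Icc r (r + 1) ⊆ t ∩ Ici (n : ℝ) := by
    intro s hs
    have h4 : (n : ℝ) ≤ s := (le_max_left _ _).trans (hr.trans hs.1)
    have h5 : (1 : ℝ) ≤ s := (le_max_right _ _).trans (hr.trans hs.1)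
    exact ⟨ht ⟨hcon s hs, h5⟩, h4⟩
  have h4 := measure_mono (μ := volume) h3
  rw [Real.volume_Icc, add_sub_cancel_left, ENNReal.ofReal_one] at h4
  exact absurd hn (not_lt.2 h4)

theorem cofin_gt (R : ℝ) : ∀ᶠ r in cofin, R < r := by
  rw [cofin_iff]
  have h : {r : ℝ | ¬ R < r} ∩ Ici 1 ⊆ Icc 1 R := by
    rintro r ⟨h1, h2⟩
    exact ⟨h2, not_lt.1 h1⟩
  refine (measure_mono h).trans_lt ?_
  rw [Real.volume_Icc]
  exact ENNReal.ofReal_lt_top

instance : cofin.NeBot := by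
  constructor
  intro h
  have h1 : ∀ᶠ r in cofin, False := by rw [h]; exact eventually_bot
  obtain ⟨R0, -, h2⟩ := cofin_near h1
  obtain ⟨_, _, h3⟩ := h2 R0 le_rfl
  exact h3

/-- **Borel's growth lemma** -/
theorem borel {φ : ℝ → ℝ} (hφ : MonotoneOn φ (Ici 1)) (h1 : ∀ r, 1 ≤ r → 1 ≤ φ r) :
    ∀ᶠ r in cofin, φ (r + (φ r)⁻¹) ≤ 2 * φ r := by
  rw [cofin_iff]
  set E : Set ℝ := {r | ¬ φ (r + (φ r)⁻¹) ≤ 2 * φ r} ∩ Ici 1 with hE
  let A : ℕ → Set ℝ := fun k => {r | r ∈ E ∧ 2 ^ k ≤ φ r ∧ φ r < 2 ^ (k + 1)}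
  have hcov : E ⊆ ⋃ k, A k := by
    intro r hr
    obtain ⟨k, hk1, hk2⟩ := exists_nat_pow_near (h1 r hr.2) (one_lt_two : (1 : ℝ) < 2)
    exact mem_iUnion.2 ⟨k, hr, hk1, hk2⟩
  have key : ∀ k, ∀ r ∈ A k, ∀ s ∈ A k, r ≤ s → s - r ≤ (1 / 2 : ℝ) ^ k := by
    rintro k r ⟨hr, hr1, hr2⟩ s ⟨hs, hs1, hs2⟩ hrs
    have hφr : 0 < φ r := zero_lt_one.trans_le (h1 r hr.2)
    by_contra hcon
    push Not at hcon
    have h2 : (φ r)⁻¹ ≤ (1 / 2 : ℝ) ^ k := by
      rw [one_div, inv_pow]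
      exact inv_anti₀ (by positivity) hr1
    have h3 : r + (φ r)⁻¹ ≤ s := by linarith
    have h4 : (1 : ℝ) ≤ r + (φ r)⁻¹ := by
      have : (1 : ℝ) ≤ r := hr.2
      have : 0 < (φ r)⁻¹ := inv_pos.2 hφr
      linarith
    have h5 := hφ h4 hs.2 h3
    have h6 := not_le.1 hr.1
    have h7 : (2 : ℝ) ^ (k + 1) = 2 * 2 ^ k := by rw [pow_succ]; ring
    linarith
  have hdiam : ∀ k, volume (A k) ≤ ENNReal.ofReal ((1 / 2 : ℝ) ^ k) := by
    intro k
    refine (Real.volume_le_diam _).trans (Metric.ediam_le fun r hr s hs => ?_)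
    rw [edist_dist, Real.dist_eq]
    apply ENNReal.ofReal_le_ofReal
    rcases le_total r s with h | h
    · rw [abs_sub_comm, abs_of_nonneg (by linarith)]
      exact key k r hr s hs h
    · rw [abs_of_nonneg (by linarith)]
      exact key k s hs r hr h
  refine ((measure_mono hcov).trans (measure_iUnion_le _)).trans_lt ?_
  refine (ENNReal.tsum_le_tsum hdiam).trans_lt ?_
  rw [← ENNReal.ofReal_tsum_of_nonneg (fun n => by positivity) summable_geometric_two]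
  exact ENNReal.ofReal_lt_top

end Pool.Agent.Helper4K9.AP
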