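import Pool.Agent.Helper4K9.AP.Small

/-!
Curves of logarithmic growth extend; curves given by linear differential equations with small
coefficients.
-/

set_option autoImplicit false

namespace Pool.Agent.Helper4K9.AP

open MvPolynomial Metric Set Filter Topology FF Pool.Agent.W602.GT Pool.Agent.TH143
  Pool.Agent.TH143.GT Pool.Agent.W603.BP Pool.Agent.W603.BPR Pool.Agent.W603.GR
  Pool.Agent.W603.PV Pool.Agent.Helper4K9.IP
open Pool.Agent.H159R3.NV (L mero_of_diff ci_log jensen_entire avg_le_cod ci_abs T2 T2_mono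
  T2_ge_L T2_ge_L0 quot_mero)

variable {N : ℕ}

/-- **Maps of logarithmic growth extend.** -/
theorem extends_of_growth {f : ℂ → Fin (N + 1) → ℂ}
    (han : ∀ j, AnalyticOnNhd ℂ (fun w => f w j) (PB 1)) (hne : ∀ w ∈ PB 1, f w ≠ 0) {C : ℝ}
    (hT : ∀ᶠ r in cofin, TP f r ≤ C * (1 + Real.log r)) : Extends f := by
  refine extends_of f han hne fun j k hj hk => ?_
  obtain ⟨s, hs1, -, hfac⟩ := fac_fam (fun (b : Bool) w => if b then f w j else f w k) one_pos
    le_rfl (fun b => by
      cases b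
      · exact han k
      · exact han j) (fun b => by
      cases b
      · exact nz_on one_pos hk
      · exact nz_on one_pos hj)
  obtain ⟨H1, G1, hH1, hG1, n1, m1, e1⟩ := hfac true
  obtain ⟨H0, G0, hH0, hG0, n0, m0, e0⟩ := hfac false
  simp only [if_true, Bool.false_eq_true, if_false] at e1 e0
  obtain ⟨C1, hC1, b1⟩ := tame_log hs1 hH1
  obtain ⟨C0, hC0, b0⟩ := tame_log hs1 hH0
  -- the bound on good circles
  have key : ∀ r, s + 1 < r → TP f r ≤ C * (1 + Real.log r) →
      T2 G0 G1 r ≤ (|C| + C0 + C1) * (1 + Real.log r) := by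
    intro r hr hTr
    have hr0 : 0 < r := by linarith
    have hlr : 0 ≤ Real.log r := Real.log_nonneg (by linarith)
    have ci1 := ci_log (mero_of_diff hG0) r
    have ci2 := Pool.Agent.H159R3.NV.ci_posLog (quot_mero hG0 hG1) r
    have ciT : CircleIntegrable (fun z => Real.log ‖f z⁻¹‖) 0 r := by
      apply ContinuousOn.circleIntegrable hr0.le
      intro z hz
      rw [← abs_of_pos hr0] at hz
      obtain ⟨h5, h6⟩ := sph_ext (by linarith) (by linarith : (1 : ℝ)⁻¹ < r) hz
      have h7 : z⁻¹ ∈ PB 1 := inv_mem_PB one_pos h5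
      have hfc : ContinuousAt f z⁻¹ := continuousAt_pi.2 fun i => (han i _ h7).continuousAt
      have h8 : ContinuousAt (fun z : ℂ => f z⁻¹) z :=
        ContinuousAt.comp (g := f) (f := fun z : ℂ => z⁻¹) hfc
          (continuousAt_inv₀ (ext_ne_zero (by norm_num) h5))
      exact (h8.norm.log (norm_ne_zero_iff.2 (hne _ h7))).continuousWithinAt
    have h1 : Real.circleAverage (fun z => Real.log ‖G0 z‖ + Real.posLog ‖G1 z / G0 z‖) 0 r ≤
        Real.circleAverage (fun z => Real.log ‖f z⁻¹‖ + (C0 + C1) * (1 + Real.log r)) 0 r := by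
      apply avg_le_cod (ci1.add ci2) (ciT.add (circleIntegrable_const _ _ _)) hr0.ne'
      filter_upwards [cod_ne hG0 n0 r, cod_ne hG1 n1 r, cod_mem r] with z h2 h3 h4
      obtain ⟨h5, h6⟩ := sph_ext (by linarith) (by linarith : s < r) h4
      have h7 : z⁻¹ ∈ PB 1 := inv_mem_PB one_pos (Ext_mono (by linarith) h5)
      change Real.log ‖G0 z‖ + Real.posLog ‖G1 z / G0 z‖ ≤
        Real.log ‖f z⁻¹‖ + (C0 + C1) * (1 + Real.log r)
      have hz6 : s + 1 ≤ ‖z‖ := by rw [h6]; linarith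
      have c1 := b1 z hz6
      have c0 := b0 z hz6
      rw [h6] at c1 c0
      have p0 : 0 ≤ C0 * (1 + Real.log r) := by positivity
      have p1 : 0 ≤ C1 * (1 + Real.log r) := by positivity
      have g0 : 0 < ‖G0 z‖ := norm_pos_iff.2 h2
      have g1 : 0 < ‖G1 z‖ := norm_pos_iff.2 h3
      have k0 : 0 < ‖H0 z‖ := norm_pos_iff.2 (hH0.ne z h5)
      have k1 : 0 < ‖H1 z‖ := norm_pos_iff.2 (hH1.ne z h5)
      have d0 : Real.log ‖H0 z‖ + Real.log ‖G0 z‖ ≤ Real.log ‖f z⁻¹‖ := by
        rw [← Real.log_mul k0.ne' g0.ne', ← norm_mul, ← e0 z h5]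
        refine Real.log_le_log ?_ (norm_le_pi_norm _ _)
        rw [e0 z h5, norm_mul]
        positivity
      have d1 : Real.log ‖H1 z‖ + Real.log ‖G1 z‖ ≤ Real.log ‖f z⁻¹‖ := by
        rw [← Real.log_mul k1.ne' g1.ne', ← norm_mul, ← e1 z h5]
        refine Real.log_le_log ?_ (norm_le_pi_norm _ _)
        rw [e1 z h5, norm_mul]
        positivity
      have c0' := (abs_le.1 c0).1
      have c1' := (abs_le.1 c1).1
      rw [Real.posLog_apply, norm_div, Real.log_div g1.ne' g0.ne']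
      rcases le_total 0 (Real.log ‖G1 z‖ - Real.log ‖G0 z‖) with h8 | h8
      · rw [max_eq_right h8]
        linarith
      · rw [max_eq_left h8]
        linarith
    rw [Real.circleAverage_fun_add ci1 ci2, Real.circleAverage_fun_add ciT
      (circleIntegrable_const _ _ _), Real.circleAverage_const] at h1
    have h2 : T2 G0 G1 r = Real.circleAverage (fun z => Real.log ‖G0 z‖) 0 r +
      Real.circleAverage (fun z => Real.posLog ‖G1 z / G0 z‖) 0 r := rfl
    have h3 : Real.circleAverage (fun z => Real.log ‖f z⁻¹‖) 0 r = TP f r := rfl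
    rw [h3] at h1
    rw [h2]
    have h4 : C * (1 + Real.log r) ≤ |C| * (1 + Real.log r) :=
      mul_le_mul_of_nonneg_right (le_abs_self C) (by linarith)
    linarith
  set C' : ℝ := |C| + C0 + C1 with hC'
  have hC'0 : 0 ≤ C' := by positivity
  obtain ⟨R0, hR0, hnear⟩ := cofin_near ((cofin_gt (s + 1)).and hT)
  have hall : ∀ r, R0 ≤ r → T2 G0 G1 r ≤ C' * (1 + Real.log 2 + Real.log r) := by
    intro r hr
    obtain ⟨r', hr', h1, h2⟩ := hnear r hr
    have hr0 : 0 < r := by linarith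
    have h3 := T2_mono hG0 n0 hG1 hr0 hr'.1
    refine h3.trans ((key r' h1 h2).trans (mul_le_mul_of_nonneg_left ?_ hC'0))
    have h4 : Real.log r' ≤ Real.log 2 + Real.log r := by
      rw [← Real.log_mul (by norm_num) hr0.ne']
      exact Real.log_le_log (by linarith [hr'.1]) (by linarith [hr'.2])
    linarith
  set c0 : ℝ := |Real.log ‖G0 0‖| with hc0
  set c1 : ℝ := |Real.log ‖G1 0‖| with hc1
  obtain ⟨R, hR, R1, hRe⟩ := rational_quot hG0 hG1 n0 n1
    (A := 2 * (C' * (1 + Real.log 2)) + c0 + c1) (B := 2 * C') (ρ0 := R0) (by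
    intro ρ hρ
    have hρ0 : 0 < ρ := by linarith
    have hlρ : 0 ≤ Real.log ρ := Real.log_nonneg (by linarith)
    have hl2 : 0 ≤ Real.log 2 := Real.log_nonneg (by norm_num)
    have h1 := hall ρ hρ
    have h2 := T2_ge_L0 G0 G1 ρ
    have h3 := T2_ge_L hG0 hG1 n0 n1 hρ0.ne'
    have h4 := jensen_entire hρ0 hG0 n0
    have h5 := jensen_entire hρ0 hG1 n1
    have h6 := neg_abs_le (Real.log ‖G0 0‖)
    have h7 := neg_abs_le (Real.log ‖G1 0‖)
    have h8 : 0 ≤ C' * Real.log ρ := by positivity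
    have h9 : 0 ≤ C' * (1 + Real.log 2) := by positivity
    have h10 : C' * (1 + Real.log 2 + Real.log ρ) = C' * (1 + Real.log 2) + C' * Real.log ρ := by
      ring
    rw [h10] at h1
    have h11 : 0 ≤ c0 := abs_nonneg _
    have h12 : 0 ≤ c1 := abs_nonneg _
    refine ⟨fun _ => 1, G0, G1, hG0, hG1, fun z => by rw [one_mul], fun z => by rw [one_mul],
      ?_, ?_, ?_⟩
    · linarith
    · linarith
    · linarith)
  refine ⟨fun w => H1 w⁻¹ * (H0 w⁻¹)⁻¹ * R w⁻¹, (m1.mul m0.inv).mul hR, ?_⟩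
  have hb : 0 < (max (max s R1) 1)⁻¹ := inv_pos.2 (lt_max_of_lt_right one_pos)
  filter_upwards [PB_mem hb] with w hw
  have h1 : w⁻¹ ∈ Ext (max (max s R1) 1) := by
    have := inv_mem_Ext hw
    rwa [inv_inv] at this
  have h2 : w⁻¹ ∈ Ext s := Ext_mono ((le_max_left _ _).trans (le_max_left _ _)) h1
  have h3 : R1 < ‖w⁻¹‖ := lt_of_le_of_lt ((le_max_right _ _).trans (le_max_left _ _)) h1
  have h4 := e1 w⁻¹ h2
  have h5 := e0 w⁻¹ h2
  have h6 := hRe w⁻¹ h3
  rw [inv_inv] at h4 h5
  have h7 := hH0.ne w⁻¹ h2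
  have h8 : H0 w⁻¹ * (H0 w⁻¹)⁻¹ = 1 := mul_inv_cancel₀ h7
  rw [h4, h5, h6]
  linear_combination (-(H1 w⁻¹ * R w⁻¹ * G0 w⁻¹)) * h8

variable {p : Ideal (MvPolynomial (Fin (N + 1)) ℂ)} {Q : MvPolynomial (Fin (N + 1)) ℂ}
  {q : ℕ} {f : ℂ → Fin (N + 1) → ℂ}

/-- The map from the punctured disc with the vector `f` of homogeneous coordinates, to the
complement of the hypersurface `Q = 0` of degree `q`, is given near the origin by iterated linear
differential equations whose coefficients are quotients of holomorphic functions small with respect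
to `f`. -/
def Admissible (Q : MvPolynomial (Fin (N + 1)) ℂ) (q : ℕ) (f : ℂ → Fin (N + 1) → ℂ) : Prop :=
  ∃ (δ : ℝ) (hδ : 0 < δ), δ ≤ 1 ∧ IterCurve (ball 0 δ \ {0}) (smallRing hδ f) Q q f

/-- Near the origin the characteristic determines whether the map extends, so it does not matter on
which disc the algebraic relations hold. -/
theorem admissible_alt (hQ : Q.IsHomogeneous q)
    (han : ∀ j, AnalyticOnNhd ℂ (fun w => f w j) (PB 1))
    (hne : ∀ z ∈ PB 1, f z ≠ 0) (hX : ∀ z ∈ PB 1, eval (f z) Q ≠ 0) (hit : Admissible Q q f)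
    {K : Type} [Field K] [Algebra ℂ K] {w : ℕ} {y : Fin (N + 1) → K}
    (hy : GenPt f (PB 1) K w y) (hL : LogGeneralType ℂ K w (OffQ Q q y)) : Extends f := by
  obtain ⟨δ, hδ, hδ1, hit⟩ := hit
  have hDB := db_small hδ hδ1 f
  rw [pb_eq] at hit hDB
  have hsub := pb_sub hδ1
  have hrel : ∀ G : MvPolynomial (Fin (N + 1)) ℂ, (∀ z ∈ PB δ, eval (f z) G = 0) ↔
      ∀ z ∈ PB 1, eval (f z) G = 0 := by
    intro G
    constructor
    · intro h
      have h1 : AnalyticOnNhd ℂ (fun z => eval (f z) G) (PB 1) := eval_an' han G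
      obtain ⟨z0, hz0⟩ := PB_nonempty hδ
      intro z hz
      refine h1.eqOn_zero_of_preconnected_of_eventuallyEq_zero (PB_preconn one_pos) (hsub hz0) ?_ hz
      filter_upwards [(PB_open δ).mem_nhds hz0] with x hx
      exact h x hx
    · exact fun h z hz => h z (hsub hz)
  rcases log_mainOn (PB_open δ) (PB_preconn hδ) (PB_nonempty hδ) hQ hDB
    (fun j => (han j).mono hsub) (fun z hz => hne z (hsub hz)) (fun z hz => hX z (hsub hz)) hit with
    halg | ⟨M, i1, i2, P, h1, h2, h3⟩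
  · obtain ⟨C, -, hC⟩ := growth_of_alg hδ hδ1 (fun j => (han j).mono hsub)
      (fun z hz => hne z (hsub hz)) halg
    exact extends_of_growth han hne hC
  · exfalso
    refine not_lgt hQ hy.ne hy.gen hy.dim P (fun G hG => ?_) h2 h3 hL
    rw [h1 G hG, hrel G]
    exact hy.rel G hG

end Pool.Agent.Helper4K9.AP
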