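import Pool.Agent.Helper4K9.AP.Ldl
import Pool.Agent.W603.BP.Germ

/-!
Mean values of functions near a puncture.
-/

set_option autoImplicit false

namespace Pool.Agent.Helper4K9.AP

open Metric Set Filter Topology Pool.Agent.W603.BP
open Pool.Agent.H159R3.NV (L mero_of_diff ci_log jensen_entire avg_le_cod ci_abs)

/-- mean of `log⁺ ‖a‖` on the circle of radius `1 / r` -/
noncomputable def mP (a : ℂ → ℂ) (r : ℝ) : ℝ :=
  Real.circleAverage (fun z => Real.posLog ‖a z⁻¹‖) 0 r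

theorem mP_nonneg (a : ℂ → ℂ) (r : ℝ) : 0 ≤ mP a r :=
  Real.circleAverage_nonneg_of_nonneg fun _ _ => Real.posLog_nonneg

theorem an_ext {a : ℂ → ℂ} {δ : ℝ} (hδ : 0 < δ) (ha : AnalyticOnNhd ℂ a (PB δ)) :
    AnalyticOnNhd ℂ (fun z => a z⁻¹) (Ext δ⁻¹) := by
  intro z hz
  have h0 := ext_ne_zero (inv_pos.mpr hδ).le hz
  exact (ha z⁻¹ (inv_mem_PB hδ hz)).comp (g := a) (f := fun z : ℂ => z⁻¹) (analyticAt_inv h0)

theorem sph_ext {s r : ℝ} (hs : 0 ≤ s) (hr : s < r) {z : ℂ} (hz : z ∈ sphere (0 : ℂ) |r|) :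
    z ∈ Ext s ∧ ‖z‖ = r := by
  rw [mem_sphere_zero_iff_norm, abs_of_pos (hs.trans_lt hr)] at hz
  refine ⟨?_, hz⟩
  change s < ‖z‖
  rw [hz]
  exact hr

/-- factorisation near a puncture -/
theorem fac_fam {ι : Type} [Fintype ι] (a : ι → ℂ → ℂ) {δ : ℝ} (hδ : 0 < δ) (hδ1 : δ ≤ 1)
    (ha : ∀ i, AnalyticOnNhd ℂ (a i) (PB δ)) (hne : ∀ i, ∃ w ∈ PB δ, a i w ≠ 0) :
    ∃ s : ℝ, 1 ≤ s ∧ δ⁻¹ ≤ s ∧ ∀ i, ∃ H G : ℂ → ℂ, Tame s H ∧ Differentiable ℂ G ∧ G 0 ≠ 0 ∧
      MeromorphicAt (fun w => H w⁻¹) 0 ∧ ∀ z ∈ Ext s, a i z⁻¹ = H z * G z := by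
  classical
  have hd1 : 1 ≤ δ⁻¹ := (one_le_inv₀ hδ).2 hδ1
  have hF : ∀ i, AnalyticOnNhd ℂ (fun z => a i z⁻¹) (Ext δ⁻¹) := fun i => an_ext hδ (ha i)
  have hFn : ∀ i, ∃ z ∈ Ext δ⁻¹, a i z⁻¹ ≠ 0 := by
    intro i
    obtain ⟨w, hw, hw0⟩ := hne i
    exact ⟨w⁻¹, inv_mem_Ext hw, by rwa [inv_inv]⟩
  obtain ⟨hP1, hP2⟩ := prod_ne (by linarith : (0 : ℝ) < δ⁻¹) Finset.univ
    (fun i z => a i z⁻¹) (fun i _ => hF i) (fun i _ => hFn i)
  obtain ⟨r1, r2, h01, h12, hfree⟩ := annulus (by linarith : (0 : ℝ) < δ⁻¹) hP1 hP2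
  obtain ⟨s, h1s, hs2⟩ := exists_between h12
  have hs1 : 1 ≤ s := by linarith
  have hs0 : 0 < s := by linarith
  refine ⟨s, hs1, by linarith, fun i => ?_⟩
  obtain ⟨k, q, G, hq, hG, hG0, hFG⟩ := birkhoff (F := fun z => a i z⁻¹)
    (by linarith : (0 : ℝ) ≤ r1) h1s hs2
    ((hF i).differentiableOn.mono (Ext_mono h01.le)) (fun z h1 h2 =>
      Finset.prod_ne_zero_iff.mp (hfree z h1 h2) i (Finset.mem_univ i))
  exact ⟨fun z => z ^ k * Complex.exp (q z⁻¹), G, tame_of hs1 k hq, hG,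
    hG0 0 (by simpa using hs0.le), unit_mero hs0 k hq, fun z hz => hFG z hz⟩

theorem tame_log {s : ℝ} (hs : 1 ≤ s) {H : ℂ → ℂ} (hH : Tame s H) :
    ∃ C : ℝ, 0 ≤ C ∧ ∀ z : ℂ, s + 1 ≤ ‖z‖ → |Real.log ‖H z‖| ≤ C * (1 + Real.log ‖z‖) := by
  obtain ⟨C, hC, κ, h⟩ := hH.bd
  refine ⟨Real.log C + κ, add_nonneg (Real.log_nonneg hC) (Nat.cast_nonneg κ), fun z hz => ?_⟩
  obtain ⟨h1, h2⟩ := h z hz
  have hz1 : 1 ≤ ‖z‖ := by linarith
  have hz0 : 0 < ‖z‖ := by linarith
  have hHn : 0 < ‖H z‖ := norm_pos_iff.2 (hH.ne z (by change s < ‖z‖; linarith))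
  have hl : 0 ≤ Real.log ‖z‖ := Real.log_nonneg hz1
  have hC0 : 0 ≤ Real.log C := Real.log_nonneg hC
  have h3 : Real.log (C * ‖z‖ ^ κ) = Real.log C + κ * Real.log ‖z‖ := by
    rw [Real.log_mul (by positivity) (by positivity), Real.log_pow]
  have h4 : Real.log ‖H z‖ ≤ Real.log C + κ * Real.log ‖z‖ := by
    rw [← h3]
    exact Real.log_le_log hHn h1
  have h5 : 0 ≤ Real.log C + κ * Real.log ‖z‖ + Real.log ‖H z‖ := by
    rw [← h3, ← Real.log_mul (by positivity) hHn.ne']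
    exact Real.log_nonneg h2
  have h6 : Real.log C + κ * Real.log ‖z‖ ≤ (Real.log C + κ) * (1 + Real.log ‖z‖) := by
    have h7 : (0 : ℝ) ≤ κ := Nat.cast_nonneg κ
    nlinarith [mul_nonneg hC0 hl]
  rw [abs_le]
  constructor <;> linarith

theorem tame_logDeriv {s : ℝ} {H : ℂ → ℂ} (hH : Tame s H) :
    ∃ C : ℝ, 1 ≤ C ∧ ∀ z : ℂ, s + 2 ≤ ‖z‖ → ‖logDeriv H z‖ ≤ C := by
  obtain ⟨C, hC, h⟩ := hH.osc
  refine ⟨C, hC, fun z hz => ?_⟩
  have hsub : closedBall z 1 ⊆ Ext s := by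
    intro w hw
    rw [mem_closedBall, dist_eq_norm] at hw
    change s < ‖w‖
    have : ‖z‖ ≤ ‖w‖ + 1 := by
      calc ‖z‖ = ‖w - (w - z)‖ := by congr 1; ring
        _ ≤ ‖w‖ + ‖w - z‖ := norm_sub_le _ _
        _ ≤ _ := by linarith
    linarith
  have hHn : 0 < ‖H z‖ := norm_pos_iff.2 (hH.ne z (hsub (mem_closedBall_self zero_le_one)))
  have h1 : ‖deriv H z‖ ≤ C * ‖H z‖ / 1 := by
    apply Complex.norm_deriv_le_of_forall_mem_sphere_norm_le one_pos
    · apply DifferentiableOn.diffContOnCl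
      rw [closure_ball z one_ne_zero]
      exact hH.an.differentiableOn.mono hsub
    · intro w hw
      rw [mem_sphere, dist_eq_norm] at hw
      exact (h z w hz hw.le).1
  rw [logDeriv_apply, norm_div, div_le_iff₀ hHn]
  simpa using h1

theorem ci_mP {a : ℂ → ℂ} {δ : ℝ} (hδ : 0 < δ) (ha : AnalyticOnNhd ℂ a (PB δ)) {r : ℝ}
    (hr : δ⁻¹ < r) : CircleIntegrable (fun z => Real.posLog ‖a z⁻¹‖) 0 r := by
  have hd0 : 0 < δ⁻¹ := inv_pos.2 hδ
  apply ContinuousOn.circleIntegrable (by linarith)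
  intro z hz
  rw [← abs_of_pos (hd0.trans hr)] at hz
  have h1 := an_ext hδ ha z (sph_ext hd0.le hr hz).1
  exact (Real.continuous_posLog.continuousAt.comp
    (f := fun z => ‖a z⁻¹‖) h1.continuousAt.norm).continuousWithinAt

theorem ci_lP {a : ℂ → ℂ} {δ : ℝ} (hδ : 0 < δ) (ha : AnalyticOnNhd ℂ a (PB δ)) {r : ℝ}
    (hr : δ⁻¹ < r) : CircleIntegrable (fun z => Real.log ‖a z⁻¹‖) 0 r := by
  have hd0 : 0 < δ⁻¹ := inv_pos.2 hδ
  apply MeromorphicOn.circleIntegrable_log_norm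
  intro z hz
  exact (an_ext hδ ha z (sph_ext hd0.le hr hz).1).meromorphicAt

theorem cod_ne {G : ℂ → ℂ} (hG : Differentiable ℂ G) (h0 : G 0 ≠ 0) (r : ℝ) :
    ∀ᶠ z in codiscreteWithin (sphere (0 : ℂ) |r|), G z ≠ 0 :=
  Pool.Agent.H159R3.NV.ne_cod hG h0 r

theorem cod_mem (r : ℝ) : ∀ᶠ z in codiscreteWithin (sphere (0 : ℂ) |r|),
    z ∈ sphere (0 : ℂ) |r| := by
  refine mem_codiscreteWithin.2 fun x hx => ?_
  rw [disjoint_principal_right]
  have : (sphere (0 : ℂ) |r| \ {z | z ∈ sphere (0 : ℂ) |r|})ᶜ = univ := by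
    ext z
    simp
  rw [this]
  exact univ_mem

/-- mean values of the logarithm are bounded from below -/
theorem low_mean {a : ℂ → ℂ} {δ : ℝ} (hδ : 0 < δ) (hδ1 : δ ≤ 1) (ha : AnalyticOnNhd ℂ a (PB δ))
    (hne : ∃ w ∈ PB δ, a w ≠ 0) : ∃ C : ℝ, 0 ≤ C ∧ ∀ᶠ r in cofin,
      -(C * (1 + Real.log r)) ≤ Real.circleAverage (fun z => Real.log ‖a z⁻¹‖) 0 r := by
  obtain ⟨s, hs1, hs2, h⟩ := fac_fam (fun _ : Unit => a) hδ hδ1 (fun _ => ha) (fun _ => hne)
  obtain ⟨H, G, hH, hG, hG0, -, hFG⟩ := h ()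
  obtain ⟨C, hC, hCH⟩ := tame_log hs1 hH
  refine ⟨C + |Real.log ‖G 0‖|, by positivity, ?_⟩
  filter_upwards [cofin_gt (s + 1)] with r hr
  have hr0 : 0 < r := by linarith
  have hr1 : 0 ≤ Real.log r := Real.log_nonneg (by linarith)
  have h1 := jensen_entire hr0 hG hG0
  have h2 : Real.circleAverage (fun z => Real.log ‖G z‖ + -(C * (1 + Real.log r))) 0 r ≤
      Real.circleAverage (fun z => Real.log ‖a z⁻¹‖) 0 r := by
    apply avg_le_cod ((ci_log (mero_of_diff hG) r).add (circleIntegrable_const _ _ _))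
      (ci_lP hδ ha (by linarith)) hr0.ne'
    filter_upwards [cod_ne hG hG0 r, cod_mem r] with z hz hzs
    obtain ⟨h3, h4⟩ := sph_ext (by linarith) (by linarith : s < r) hzs
    rw [hFG z h3, norm_mul, Real.log_mul (norm_ne_zero_iff.2 (hH.ne z h3)) (norm_ne_zero_iff.2 hz)]
    have h5 := hCH z (by rw [h4]; linarith)
    rw [h4, abs_le] at h5
    change Real.log ‖G z‖ + -(C * (1 + Real.log r)) ≤ _
    linarith [h5.1]
  rw [Real.circleAverage_fun_add (ci_log (mero_of_diff hG) r) (circleIntegrable_const _ _ _),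
    Real.circleAverage_const] at h2
  have h3 : Real.circleAverage (fun z => Real.log ‖G z‖) 0 r = L G r := rfl
  rw [h3] at h2
  have h4 := neg_abs_le (Real.log ‖G 0‖)
  have h5 : 0 ≤ |Real.log ‖G 0‖| * Real.log r := by positivity
  linarith

/-- **Derivatives.** -/
theorem mP_deriv {a : ℂ → ℂ} {δ : ℝ} (hδ : 0 < δ) (hδ1 : δ ≤ 1) (ha : AnalyticOnNhd ℂ a (PB δ)) :
    ∃ C : ℝ, 0 ≤ C ∧ ∀ᶠ r in cofin, mP (deriv a) r ≤ 2 * mP a r + C * (1 + Real.log r) := by
  by_cases hne : ∃ w ∈ PB δ, a w ≠ 0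
  swap
  · push Not at hne
    refine ⟨0, le_rfl, ?_⟩
    filter_upwards [cofin_gt δ⁻¹] with r hr
    have h1 : mP (deriv a) r = 0 := by
      unfold mP
      rw [Real.circleAverage_congr_sphere (f₂ := fun _ => (0 : ℝ)), Real.circleAverage_const]
      intro z hz
      obtain ⟨h2, h3⟩ := sph_ext (inv_pos.2 hδ).le hr hz
      have h4 : a =ᶠ[𝓝 z⁻¹] fun _ => 0 := by
        filter_upwards [(PB_open δ).mem_nhds (inv_mem_PB hδ h2)] with w hw
        exact hne w hw
      simp only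
      rw [h4.deriv_eq, deriv_const, norm_zero, Real.posLog_zero]
    rw [h1, zero_mul, add_zero]
    have := mP_nonneg a r
    positivity
  obtain ⟨s, hs1, hs2, h⟩ := fac_fam (fun _ : Unit => a) hδ hδ1 (fun _ => ha) (fun _ => hne)
  obtain ⟨H, G, hH, hG, hG0, -, hFG⟩ := h ()
  obtain ⟨C1, hC1, hCH⟩ := tame_log hs1 hH
  obtain ⟨C2, hC2, hCD⟩ := tame_logDeriv hH
  obtain ⟨C3, hC3, hldl⟩ := ldl hG hG0 one_pos
  have hdan : AnalyticOnNhd ℂ (deriv a) (PB δ) := ha.deriv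
  have hmD : Meromorphic (logDeriv G) := by
    have h1 : logDeriv G = fun z => deriv G z / G z := by
      funext z
      rfl
    rw [h1]
    intro z
    exact ((mero_of_diff hG z).deriv).div (mero_of_diff hG z)
  have hl2 : 0 ≤ Real.log 2 := Real.log_nonneg (by norm_num)
  have hlC2 : 0 ≤ Real.log C2 := Real.log_nonneg hC2
  refine ⟨2 + Real.log 2 + Real.log C2 + C3 + C1, by positivity, ?_⟩
  filter_upwards [cofin_gt (s + 2), hldl] with r hr hr3
  have hr0 : 0 < r := by linarith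
  have hlr : 0 ≤ Real.log r := Real.log_nonneg (by linarith)
  have ci1 := ci_mP hδ ha (r := r) (by linarith)
  have ci2 : CircleIntegrable (fun z => Real.posLog ‖logDeriv G z‖) 0 r :=
    Pool.Agent.H159R3.NV.ci_posLog hmD r
  -- the proximity function of the entire factor
  have hG1 : mm G r ≤ mP a r + C1 * (1 + Real.log r) := by
    have h1 : mm G r ≤ Real.circleAverage
        (fun z => Real.posLog ‖a z⁻¹‖ + C1 * (1 + Real.log r)) 0 r := by
      apply Real.circleAverage_mono (Pool.Agent.H159R3.NV.ci_posLog (mero_of_diff hG) r)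
        (ci1.add (circleIntegrable_const _ _ _))
      intro z hz
      obtain ⟨h3, h4⟩ := sph_ext (by linarith) (by linarith : s < r) hz
      have h5 := hCH z (by rw [h4]; linarith)
      rw [h4] at h5
      have hHn : 0 < ‖H z‖ := norm_pos_iff.2 (hH.ne z h3)
      have h6 : ‖G z‖ = ‖a z⁻¹‖ * ‖H z‖⁻¹ := by
        rw [hFG z h3, norm_mul]
        field_simp
      rw [h6]
      refine Real.posLog_mul.trans (add_le_add le_rfl ?_)
      rw [Real.posLog_apply]
      refine max_le ((abs_nonneg _).trans h5) ?_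
      rw [Real.log_inv]
      exact (neg_le_abs _).trans h5
    rwa [Real.circleAverage_fun_add ci1 (circleIntegrable_const _ _ _),
      Real.circleAverage_const] at h1
  -- the derivative
  have h1 : mP (deriv a) r ≤ Real.circleAverage (fun z => Real.posLog ‖a z⁻¹‖ +
      (Real.posLog ‖logDeriv G z‖ + (2 * Real.log r + Real.log 2 + Real.log C2))) 0 r := by
    unfold mP
    apply avg_le_cod (ci_mP hδ hdan (by linarith))
      (ci1.add (ci2.add (circleIntegrable_const _ _ _))) hr0.ne'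
    filter_upwards [cod_ne hG hG0 r, cod_mem r] with z hz hzs
    obtain ⟨h3, h4⟩ := sph_ext (by linarith) (by linarith : s < r) hzs
    have hz0 : z ≠ 0 := by
      rw [← norm_pos_iff, h4]
      exact hr0
    have hHz := hH.ne z h3
    -- the derivative of the product
    have e1 : deriv (fun z => a z⁻¹) z = deriv a z⁻¹ * (-(z ^ 2)⁻¹) := by
      have h5 := (ha z⁻¹ (inv_mem_PB hδ (Ext_mono hs2 h3))).differentiableAt.hasDerivAt
      exact (h5.comp z (hasDerivAt_inv hz0)).deriv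
    have e2 : deriv (fun z => a z⁻¹) z = deriv (fun z => H z * G z) z := by
      apply Filter.EventuallyEq.deriv_eq
      filter_upwards [(Ext_open s).mem_nhds h3] with w hw
      exact hFG w hw
    have e3 : deriv (fun z => H z * G z) z = (logDeriv H z + logDeriv G z) * (H z * G z) := by
      have h6 : deriv (fun z => H z * G z) z = deriv H z * G z + H z * deriv G z :=
        deriv_fun_mul (hH.an z h3).differentiableAt (hG z)
      rw [h6, logDeriv_apply, logDeriv_apply]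
      field_simp
    have e4 : deriv a z⁻¹ = -(z ^ 2) * (logDeriv H z + logDeriv G z) * (a z⁻¹) := by
      rw [hFG z h3]
      have h7 : deriv a z⁻¹ * (-(z ^ 2)⁻¹) = (logDeriv H z + logDeriv G z) * (H z * G z) := by
        rw [← e1, e2, e3]
      have h8 : deriv a z⁻¹ = -(z ^ 2) * (deriv a z⁻¹ * (-(z ^ 2)⁻¹)) := by
        field_simp
      rw [h8, h7]
      ring
    rw [e4, norm_mul, norm_mul, norm_neg, norm_pow, h4]
    have p1 : Real.posLog (r ^ 2) = 2 * Real.log r := by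
      rw [Real.posLog_apply, Real.log_pow]
      push_cast
      exact max_eq_right (by positivity)
    have p2 : Real.posLog ‖logDeriv H z + logDeriv G z‖ ≤
        Real.log 2 + (Real.log C2 + Real.posLog ‖logDeriv G z‖) := by
      have h5 : Real.posLog ‖logDeriv H z + logDeriv G z‖ ≤
          Real.posLog ‖logDeriv H z‖ + Real.posLog ‖logDeriv G z‖ + Real.log 2 :=
        Real.posLog_norm_add_le _ _
      have h6 : Real.posLog ‖logDeriv H z‖ ≤ Real.log C2 := by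
        have h7 : Real.posLog ‖logDeriv H z‖ ≤ Real.posLog C2 :=
          Real.posLog_le_posLog (norm_nonneg _) (hCD z (by rw [h4]; linarith))
        have h8 : Real.posLog C2 = Real.log C2 := by
          rw [Real.posLog_apply]
          exact max_eq_right hlC2
        rw [h8] at h7
        exact h7
      linarith
    have p3 : Real.posLog (r ^ 2 * ‖logDeriv H z + logDeriv G z‖ * ‖a z⁻¹‖) ≤
        Real.posLog (r ^ 2) + Real.posLog ‖logDeriv H z + logDeriv G z‖ + Real.posLog ‖a z⁻¹‖ :=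
      Real.posLog_mul.trans (add_le_add Real.posLog_mul le_rfl)
    rw [p1] at p3
    change _ ≤ Real.posLog ‖a z⁻¹‖ +
      (Real.posLog ‖logDeriv G z‖ + (2 * Real.log r + Real.log 2 + Real.log C2))
    linarith
  have ci3 : CircleIntegrable (fun z => Real.posLog ‖logDeriv G z‖ +
      (2 * Real.log r + Real.log 2 + Real.log C2)) 0 r := ci2.add (circleIntegrable_const _ _ _)
  rw [Real.circleAverage_fun_add ci1 ci3,
    Real.circleAverage_fun_add ci2 (circleIntegrable_const _ _ _), Real.circleAverage_const] at h1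
  have h2 : Real.circleAverage (fun z => Real.posLog ‖a z⁻¹‖) 0 r = mP a r := rfl
  rw [h2] at h1
  have h5 : 0 ≤ (Real.log 2 + Real.log C2) * Real.log r := by positivity
  have h6 : (2 + Real.log 2 + Real.log C2 + C3 + C1) * (1 + Real.log r) =
      2 + 2 * Real.log r + (Real.log 2 + Real.log C2) + (Real.log 2 + Real.log C2) * Real.log r +
        C3 * (1 + Real.log r) + C1 * (1 + Real.log r) := by ring
  rw [h6]
  linarith

end Pool.Agent.Helper4K9.AP
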