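import Pool.Agent.Helper4K9.AP.Ext

/-!
Extension of curves given by iterated linear differential equations with small coefficients across
a puncture.
-/

set_option autoImplicit false

namespace Pool.Agent.Helper4K9.AP

open MvPolynomial Metric Set Filter Topology FF Pool.Agent.W602.GT Pool.Agent.TH143
  Pool.Agent.TH143.GT Pool.Agent.W603.BP Pool.Agent.W603.BPR Pool.Agent.W603.GR
  Pool.Agent.W603.PV Pool.Agent.Helper4K9.IP

variable {N : ℕ} {p : Ideal (MvPolynomial (Fin (N + 1)) ℂ)} {Q : MvPolynomial (Fin (N + 1)) ℂ}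
  {q : ℕ} {f : ℂ → Fin (N + 1) → ℂ}

/-- **Picard's theorem** for curves given by iterated linear differential equations with small
coefficients, in quasi-projective varieties which are strongly of log general type -/
theorem strong_picard (hp : IsHomog p) (hQ : Q.IsHomogeneous q) {G : MvPolynomial (Fin (N + 1)) ℂ}
    (hG : IsForm G) (h : SubLogGT p Q q G) (hf : PCurve p Q f) (hit : Admissible Q q f)
    (hfG : ∃ z ∈ ball (0 : ℂ) 1 \ {0}, eval (f z) G ≠ 0) : Extends f := by
  have han := hf.an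
  have hne : ∀ w ∈ PB 1, f w ≠ 0 := fun w hw => (hf.2 w (mem_disc.2 hw)).1
  have hX : ∀ z ∈ PB 1, ∀ H ∈ p, eval (f z) H = 0 := fun z hz => (hf.2 z (mem_disc.2 hz)).2.1
  have hfQ : ∀ z ∈ PB 1, eval (f z) Q ≠ 0 := fun z hz => (hf.2 z (mem_disc.2 hz)).2.2
  obtain ⟨z0, hz0⟩ := PB_nonempty one_pos
  obtain ⟨j0, hj0⟩ := Function.ne_iff.1 (hne z0 hz0)
  obtain ⟨K, i1, i2, w, y, h1, h2, h3, h4, h5⟩ := exists_closure f (PB_preconn one_pos) han
    ⟨z0, hz0, hj0⟩
  have hy : GenPt f (PB 1) K w y := ⟨h1, h2, h3, h4⟩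
  rcases Nat.eq_zero_or_pos w with hw | hw
  · exact extends_of_const han hne (h5 hw)
  · have hsub := subVar_of_genPt hp hQ hy hX ⟨z0, hz0, hfQ z0 hz0⟩
    have hGy : W602.GT.val y G ≠ 0 := by
      intro h0
      obtain ⟨z, hz, hzG⟩ := hfG
      exact hzG ((hy.rel G hG).1 h0 z (mem_disc.1 hz))
    exact admissible_alt hQ han hne hfQ hit hy (h K w y hw hsub hGy)

/-- **Brody's property** for entire curves given near infinity by iterated linear differential
equations with small coefficients -/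
theorem strong_brody (hp : IsHomog p) (hQ : Q.IsHomogeneous q) {G : MvPolynomial (Fin (N + 1)) ℂ}
    (hG : IsForm G) (h : SubLogGT p Q q G) (hf : EntireCurve p Q f)
    (hit : Admissible Q q (fun w => f w⁻¹)) (z : ℂ) : eval (f z) G = 0 := by
  by_contra hz
  obtain ⟨hd, hne, hfQ, hnc⟩ := ent_data hf
  have hfa : ∀ j, AnalyticOnNhd ℂ (fun w => f w j) univ := fun j z _ => (hd j).analyticAt z
  obtain ⟨j0, hj0⟩ := Function.ne_iff.1 (hne 0)
  obtain ⟨K, i1, i2, w, y, h1, h2, h3, h4, h5⟩ := exists_closure f isPreconnected_univ hfa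
    ⟨0, mem_univ _, hj0⟩
  have hy : GenPt f univ K w y := ⟨h1, h2, h3, h4⟩
  rcases Nat.eq_zero_or_pos w with hw | hw
  · choose c hc using h5 hw
    obtain ⟨s, t, j, k, hst⟩ := hnc
    apply hst
    rw [hc j s (mem_univ _), hc k t (mem_univ _), hc k s (mem_univ _), hc j t (mem_univ _)]
    ring
  · have hsub := subVar_of_genPt hp hQ hy (fun z _ => (hf.2.1 z).2.1) ⟨0, mem_univ _, hfQ 0⟩
    have hGy : W602.GT.val y G ≠ 0 := by
      intro h0
      exact hz ((hy.rel G hG).1 h0 z (mem_univ z))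
    have hL := h K w y hw hsub hGy
    obtain ⟨a1, a2, a3⟩ := inv_facts hd hne hfQ
    exact rational_alt hQ hd hne hfQ hnc (admissible_alt hQ a1 a2 a3 hit (hy.inv hd) hL) hy hL

end Pool.Agent.Helper4K9.AP
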