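import Pool.Agent.Helper160.NevLib
import Pool.Agent.H159R3.NV.StepB
import Pool.Agent.Helper4K9.AP.Borel

/-!
The lemma on the logarithmic derivative for entire functions, in a weak form.
-/

set_option autoImplicit false

namespace Pool.Agent.Helper4K9.AP

open Metric Set Filter Topology MeromorphicOn
open Pool.Agent.H159R3.NV (L mero_of_diff ci_log jensen_entire T2 T2_mono avg_abs_log L_mono)
open Pool.Agent.Helper160.Nev (zeroMult poleMult counting zp zp_finite zeroMult_mem zeroMult_nonneg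
  sum_mul_log_le exists_const avg_log_sum zero_add_pole jensen)

/-- mean of `log⁺ ‖G‖` on the circle of radius `r` -/
noncomputable def mm (G : ℂ → ℂ) (r : ℝ) : ℝ :=
  Real.circleAverage (fun z => Real.posLog ‖G z‖) 0 r

theorem mm_nonneg (G : ℂ → ℂ) (r : ℝ) : 0 ≤ mm G r :=
  Real.circleAverage_nonneg_of_nonneg fun _ _ => Real.posLog_nonneg

theorem mm_mono {G : ℂ → ℂ} (hG : Differentiable ℂ G) {r R : ℝ} (hr : 0 < r) (h : r ≤ R) :
    mm G r ≤ mm G R := by
  have key : ∀ ρ, T2 (fun _ => 1) G ρ = mm G ρ := by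
    intro ρ
    unfold T2 L mm
    simp only [norm_one, Real.log_one, div_one]
    rw [Real.circleAverage_const, zero_add]
  rw [← key, ← key]
  exact T2_mono (f := fun _ => 1) (differentiable_const _) (x := 0) one_ne_zero hG hr h

theorem L_le_mm {G : ℂ → ℂ} (hG : Differentiable ℂ G) (r : ℝ) : L G r ≤ mm G r :=
  Real.circleAverage_mono (ci_log (mero_of_diff hG) r)
    (Pool.Agent.H159R3.NV.ci_posLog (mero_of_diff hG) r) fun _ _ =>
      Pool.Agent.H159R3.NV.log_le_posLog _

theorem pole_zero {G : ℂ → ℂ} (hG : Differentiable ℂ G) (z : ℂ) : poleMult G z = 0 := by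
  unfold poleMult
  have h := (hG.analyticAt z).meromorphicOrderAt_nonneg
  have h2 : 0 ≤ (meromorphicOrderAt G z).untop₀ := by
    cases h4 : meromorphicOrderAt G z with
    | top => simp
    | coe n =>
      rw [h4] at h
      simpa using h
  omega

/-- number of the zeros -/
theorem zeros_le {G : ℂ → ℂ} (hG : Differentiable ℂ G) (h0 : G 0 ≠ 0) {R R' : ℝ} (hR : 1 / 2 ≤ R)
    (hRR : R < R') (h1 : MeromorphicOn G (closedBall 0 R)) :
    (∑ u ∈ (divisor_ball_support_finite h1).toFinset, |(divisor G (ball 0 R) u : ℝ)|) *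
      Real.log (R' / R) ≤ L G R' - Real.log ‖G 0‖ := by
  have hR0 : 0 < R := by linarith
  have hR'0 : 0 < R' := by linarith
  have hm : MeromorphicOn G (closedBall 0 R') := fun z _ => mero_of_diff hG z
  have hF := zp_finite hm
  set S := (divisor_ball_support_finite h1).toFinset with hS
  have hSsub : ∀ z ∈ S, z ∈ ball (0:ℂ) R := by
    intro u hu
    rw [hS, Set.Finite.mem_toFinset] at hu
    exact (divisor G (ball 0 R)).supportWithinDomain hu
  have e1 := sum_mul_log_le (μ := zeroMult G) hR hRR hF.toFinset S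
      (fun z hz => ((Set.Finite.mem_toFinset hF).1 hz).1)
      (fun z hz h => (Set.Finite.mem_toFinset hF).2 (zeroMult_mem z hz h)) (zeroMult_nonneg G) hSsub
  have hz0 : zeroMult G 0 = 0 := by
    unfold zeroMult
    rw [(hG.analyticAt 0).meromorphicOrderAt_eq, (hG.analyticAt 0).analyticOrderAt_eq_zero.mpr h0]
    rfl
  have e2 := jensen hR'0 hm
  have e3 : counting (poleMult G) R' = 0 := by
    unfold counting
    simp [pole_zero hG]
  rw [e3, (hG.analyticAt 0).meromorphicTrailingCoeffAt_of_ne_zero h0] at e2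
  rw [hz0] at e1
  have e4 : ∑ u ∈ S, |(divisor G (ball 0 R) u : ℝ)| = ∑ u ∈ S, (zeroMult G u : ℝ) := by
    refine Finset.sum_congr rfl fun u hu => ?_
    have h1' : MeromorphicOn G (ball 0 R) := h1.mono_set ball_subset_closedBall
    rw [divisor_apply h1' (hSsub u hu)]
    have := zero_add_pole G u
    rw [pole_zero hG, add_zero] at this
    rw [this]
    push_cast
    rfl
  rw [e4]
  unfold L
  rw [e2]
  push_cast at e1
  linarith

theorem good_radius {G : ℂ → ℂ} (hG : Differentiable ℂ G) (hord : ∀ u, meromorphicOrderAt G u ≠ ⊤)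
    {r1 r2 : ℝ} (h12 : r1 < r2) :
    ∃ R ∈ Ioo r1 r2, ∀ u ∈ sphere (0:ℂ) R, meromorphicOrderAt G u = 0 := by
  have hm : MeromorphicOn G (closedBall 0 r2) := fun z _ => mero_of_diff hG z
  have hfin : (norm '' (zp G r2)).Finite := (zp_finite hm).image _
  obtain ⟨R, hR1, hR2⟩ := (Set.Ioo_infinite h12).exists_notMem_finite hfin
  refine ⟨R, hR1, ?_⟩
  intro u hu
  rw [mem_sphere_zero_iff_norm] at hu
  by_contra hne
  apply hR2
  refine ⟨u, ⟨?_, ?_⟩, hu⟩
  · rw [mem_closedBall_zero_iff, hu]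
    exact hR1.2.le
  · obtain ⟨n, hn⟩ := WithTop.ne_top_iff_exists.1 (hord u)
    intro h4
    apply hne
    rw [← hn] at h4 ⊢
    simp only [WithTop.untop₀_coe] at h4
    rw [h4]
    rfl

/-- **Lemma on the logarithmic derivative** -/
theorem ldl {G : ℂ → ℂ} (hG : Differentiable ℂ G) (h0 : G 0 ≠ 0) {ε : ℝ} (hε : 0 < ε) :
    ∃ C : ℝ, 0 ≤ C ∧ ∀ᶠ r in cofin,
      Real.circleAverage (fun z => Real.posLog ‖logDeriv G z‖) 0 r ≤
        ε * mm G r + C * (1 + Real.log r) := by
  obtain ⟨C0, hC0, hC⟩ := exists_const (α := 1 / 2) (by norm_num) (by norm_num)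
  set c0 : ℝ := |Real.log ‖G 0‖| with hc0
  have hc0n : 0 ≤ c0 := abs_nonneg _
  have hord : ∀ u, meromorphicOrderAt G u ≠ ⊤ := by
    intro u
    rw [meromorphicOrderAt_ne_top_iff_eventually_ne_zero (mero_of_diff hG u)]
    have h1 : AnalyticOnNhd ℂ G univ := fun z _ => hG.analyticAt z
    rcases h1.eqOn_zero_or_eventually_ne_zero_of_preconnected isPreconnected_univ with h | h
    · exact absurd (h (mem_univ 0)) h0
    · have h2 := (mem_codiscreteWithin_iff_forall_mem_nhdsNE.1 h) u (mem_univ u)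
      filter_upwards [h2] with z hz
      rcases hz with hz | hz
      · exact hz
      · exact absurd (mem_univ z) hz
  set K : ℝ := 2 + 6 * (4 + c0) + 6 * C0 * (2 + c0) with hK
  have hK1 : 1 ≤ K := by
    have : 0 ≤ 6 * C0 * (2 + c0) := by positivity
    linarith
  let φ : ℝ → ℝ := fun r => 1 + mm G r
  have hφm : MonotoneOn φ (Ici 1) := by
    intro a ha b _ hab
    have : (0:ℝ) < a := zero_lt_one.trans_le ha
    exact add_le_add le_rfl (mm_mono hG this hab)
  have hφ1 : ∀ r, 1 ≤ r → 1 ≤ φ r := fun r _ => by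
    have := mm_nonneg G r
    change 1 ≤ 1 + mm G r
    linarith
  have hl2 : 0 ≤ Real.log 2 := Real.log_nonneg (by norm_num)
  set l4 : ℝ := |Real.log (4 / ε)| + ε with hl4d
  have hl4 : 0 ≤ l4 := by positivity
  refine ⟨2 * Real.log K + 4 * l4 + 2 * Real.log 2 + 2, by
    have := Real.log_nonneg hK1
    positivity, ?_⟩
  filter_upwards [borel hφm hφ1, cofin_gt 1] with r hr hr1
  set P : ℝ := φ r with hP
  have hP1 : 1 ≤ P := hφ1 r hr1.le
  have hP0 : 0 < P := by linarith
  set d : ℝ := P⁻¹ with hd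
  have hd0 : 0 < d := inv_pos.2 hP0
  have hd1 : d ≤ 1 := inv_le_one_of_one_le₀ hP1
  have hdP : d * P = 1 := inv_mul_cancel₀ hP0.ne'
  obtain ⟨R, ⟨hRa, hRb⟩, hRgood⟩ := good_radius hG hord (r1 := r + d / 3) (r2 := r + 2 * d / 3)
    (by linarith)
  have hR0 : 0 < R := by linarith
  have hrR : r < R := by linarith
  have hRR' : R < r + d := by linarith
  have hm1 : MeromorphicOn G (closedBall 0 R) := fun z _ => mero_of_diff hG z
  have hmain := avg_log_sum ({()} : Finset Unit) (fun _ => G) (r := r) (R := R) (α := 1 / 2)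
    (C := C0) (by linarith) hrR (by norm_num) (by norm_num) (fun _ => hm1)
    (fun _ _ u _ => hord u) (fun _ _ => hRgood) hC0 (hC r (by linarith))
  simp only [Finset.sum_singleton] at hmain
  refine hmain.trans ?_
  -- the bounds
  have hmR' : mm G (r + d) ≤ 2 * P := by
    have h2 : 1 + mm G (r + d) ≤ 2 * P := hr
    linarith
  have b1 : 2 * R / (R ^ 2 - r ^ 2) ≤ 6 * P := by
    have h2 : d / 3 ≤ R - r := by linarith
    have h3 : 0 < R ^ 2 - r ^ 2 := by nlinarith
    rw [div_le_iff₀ h3]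
    have h4 : R ^ 2 - r ^ 2 = (R - r) * (R + r) := by ring
    rw [h4]
    have h5 : 1 / 3 ≤ P * (R - r) := by
      calc (1 : ℝ) / 3 = P * (d / 3) := by rw [← hdP]; ring
        _ ≤ P * (R - r) := mul_le_mul_of_nonneg_left h2 hP0.le
    have h6 : 0 < R + r := by linarith
    nlinarith [mul_le_mul_of_nonneg_right h5 h6.le]
  have b2 : Real.circleAverage (fun ζ => |Real.log ‖G ζ‖|) 0 R ≤ 4 * P + c0 := by
    rw [avg_abs_log (mero_of_diff hG)]
    have h2 := jensen_entire hR0 hG h0
    have h3 : mm G R ≤ mm G (r + d) := mm_mono hG hR0 hRR'.le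
    have h4 := neg_abs_le (Real.log ‖G 0‖)
    have h5 : Real.circleAverage (fun z => Real.posLog ‖G z‖) 0 R = mm G R := rfl
    rw [h5]
    linarith
  have b2' : 0 ≤ Real.circleAverage (fun ζ => |Real.log ‖G ζ‖|) 0 R :=
    Real.circleAverage_nonneg_of_nonneg fun _ _ => abs_nonneg _
  set Z : ℝ := ∑ u ∈ (divisor_ball_support_finite hm1).toFinset, |(divisor G (ball 0 R) u : ℝ)|
    with hZ
  have hZ0 : 0 ≤ Z := Finset.sum_nonneg fun _ _ => abs_nonneg _
  have b3 : Z ≤ (2 * P + c0) * (3 * (r + 1) * P) := by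
    have h2 := zeros_le hG h0 (R := R) (R' := r + d) (by linarith) hRR' hm1
    rw [← hZ] at h2
    have h3 : L G (r + d) - Real.log ‖G 0‖ ≤ 2 * P + c0 := by
      have h4 := L_le_mm hG (r + d)
      have h5 := neg_abs_le (Real.log ‖G 0‖)
      linarith
    have h4 : d / (3 * (r + 1)) ≤ Real.log ((r + d) / R) := by
      have h5 := Real.one_sub_inv_le_log_of_pos (x := (r + d) / R) (by positivity)
      refine le_trans ?_ h5
      rw [inv_div]
      have h6 : (1 : ℝ) - R / (r + d) = (r + d - R) / (r + d) := by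
        field_simp
      rw [h6, div_le_div_iff₀ (by positivity) (by positivity)]
      have h7 : d / 3 ≤ r + d - R := by linarith
      have h8 : r + d ≤ r + 1 := by linarith
      calc d * (r + d) ≤ d * (r + 1) := by gcongr
        _ = (d / 3) * (3 * (r + 1)) := by ring
        _ ≤ (r + d - R) * (3 * (r + 1)) := by gcongr
    have h9 : Z * (d / (3 * (r + 1))) ≤ 2 * P + c0 :=
      (mul_le_mul_of_nonneg_left h4 hZ0).trans (h2.trans h3)
    have h10 : Z = Z * (d / (3 * (r + 1))) * (3 * (r + 1) * P) := by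
      have h11 : (3 * (r + 1)) ≠ 0 := by positivity
      field_simp
      rw [mul_assoc, hdP, mul_one]
    rw [h10]
    apply mul_le_mul_of_nonneg_right h9
    positivity
  have hin : 1 + (1 + 2 * R / (R ^ 2 - r ^ 2) * Real.circleAverage (fun ζ => |Real.log ‖G ζ‖|) 0 R +
      ∑ u ∈ (divisor_ball_support_finite hm1).toFinset,
        |(divisor G (ball 0 R) u : ℝ)| * (2 * C0)) ≤ K * (P ^ 2 * (r + 1)) := by
    rw [← Finset.sum_mul, ← hZ]
    have h2 : 2 * R / (R ^ 2 - r ^ 2) * Real.circleAverage (fun ζ => |Real.log ‖G ζ‖|) 0 R ≤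
        (6 * P) * (4 * P + c0) := mul_le_mul b1 b2 b2' (by positivity)
    have h3 : Z * (2 * C0) ≤ ((2 * P + c0) * (3 * (r + 1) * P)) * (2 * C0) :=
      mul_le_mul_of_nonneg_right b3 (by positivity)
    have h4 : 1 ≤ P ^ 2 := one_le_pow₀ hP1
    have h5 : 1 ≤ P ^ 2 * (r + 1) := by nlinarith
    have h6 : P * (4 * P + c0) ≤ (4 + c0) * (P ^ 2 * (r + 1)) := by
      have h7 : P * (4 * P + c0) ≤ (4 + c0) * P ^ 2 := by
        nlinarith [mul_nonneg (mul_nonneg hc0n hP0.le) (sub_nonneg.2 hP1)]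
      have h8 : P ^ 2 ≤ P ^ 2 * (r + 1) := by nlinarith
      calc P * (4 * P + c0) ≤ (4 + c0) * P ^ 2 := h7
        _ ≤ _ := mul_le_mul_of_nonneg_left h8 (by positivity)
    have h7 : (2 * P + c0) * P ≤ (2 + c0) * P ^ 2 := by
      nlinarith [mul_nonneg (mul_nonneg hc0n hP0.le) (sub_nonneg.2 hP1)]
    have h8 : ((2 * P + c0) * (3 * (r + 1) * P)) * (2 * C0) ≤
        6 * C0 * (2 + c0) * (P ^ 2 * (r + 1)) := by
      calc ((2 * P + c0) * (3 * (r + 1) * P)) * (2 * C0) =
          (6 * C0 * (r + 1)) * ((2 * P + c0) * P) := by ring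
        _ ≤ (6 * C0 * (r + 1)) * ((2 + c0) * P ^ 2) := by gcongr
        _ = _ := by ring
    have h9 : 2 * R / (R ^ 2 - r ^ 2) * Real.circleAverage (fun ζ => |Real.log ‖G ζ‖|) 0 R ≤
        6 * ((4 + c0) * (P ^ 2 * (r + 1))) := by
      have h10 : (6 * P) * (4 * P + c0) = 6 * (P * (4 * P + c0)) := by ring
      rw [h10] at h2
      linarith
    have h10 : K * (P ^ 2 * (r + 1)) = 2 * (P ^ 2 * (r + 1)) + 6 * ((4 + c0) * (P ^ 2 * (r + 1))) +
        6 * C0 * (2 + c0) * (P ^ 2 * (r + 1)) := by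
      rw [hK]
      ring
    rw [h10]
    linarith
  have hpos : 0 < 1 + (1 + 2 * R / (R ^ 2 - r ^ 2) *
      Real.circleAverage (fun ζ => |Real.log ‖G ζ‖|) 0 R +
      ∑ u ∈ (divisor_ball_support_finite hm1).toFinset,
        |(divisor G (ball 0 R) u : ℝ)| * (2 * C0)) := by
    have h3 : 0 < R ^ 2 - r ^ 2 := by nlinarith
    have h4 : 0 ≤ 2 * R / (R ^ 2 - r ^ 2) * Real.circleAverage (fun ζ => |Real.log ‖G ζ‖|) 0 R :=
      mul_nonneg (by positivity) b2'
    have h5 : 0 ≤ ∑ u ∈ (divisor_ball_support_finite hm1).toFinset,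
        |(divisor G (ball 0 R) u : ℝ)| * (2 * C0) :=
      Finset.sum_nonneg fun _ _ => by positivity
    linarith
  have h2 := Real.log_le_log hpos hin
  have h3 : Real.log (K * (P ^ 2 * (r + 1))) = Real.log K + (2 * Real.log P + Real.log (r + 1)) := by
    rw [Real.log_mul (by positivity) (by positivity), Real.log_mul (by positivity) (by positivity),
      Real.log_pow]
    push_cast
    ring
  have h4 : Real.log P ≤ ε * P / 4 + l4 - ε - 1 := by
    have h5 := Real.log_le_sub_one_of_pos (x := P / (4 / ε)) (by positivity)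
    rw [Real.log_div hP0.ne' (by positivity)] at h5
    have h6 : P / (4 / ε) = ε * P / 4 := by
      field_simp
    rw [h6] at h5
    have h7 := le_abs_self (Real.log (4 / ε))
    linarith
  have h5 : Real.log (r + 1) ≤ Real.log 2 + Real.log r := by
    rw [← Real.log_mul (by norm_num) (by positivity)]
    exact Real.log_le_log (by positivity) (by linarith)
  have h6 : 0 ≤ Real.log r := Real.log_nonneg hr1.le
  have h7 := Real.log_nonneg hK1
  have h8 : P = 1 + mm G r := rfl
  have h9 : (0 : ℝ) ≤ (2 * Real.log K + 4 * l4 + 2 * Real.log 2) * Real.log r := by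
    positivity
  have h12 : ε * P = ε + ε * mm G r := by rw [h8]; ring
  rw [h3] at h2
  have h10 : (1 : ℝ) / (1 / 2) = 2 := by norm_num
  rw [h10]
  have h11 : (2 * Real.log K + 4 * l4 + 2 * Real.log 2 + 2) * (1 + Real.log r) =
      (2 * Real.log K + 4 * l4 + 2 * Real.log 2) + 2 +
      (2 * Real.log K + 4 * l4 + 2 * Real.log 2) * Real.log r + 2 * Real.log r := by ring
  rw [h11]
  linarith

end Pool.Agent.Helper4K9.AP
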