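import Pool.Agent.Helper4K9.AP.Fac
import Pool.Agent.Helper4K9.IP.Pic

/-!
Functions near a puncture which are small with respect to a holomorphic curve.
-/

set_option autoImplicit false

namespace Pool.Agent.Helper4K9.AP

open Metric Set Filter Topology Pool.Agent.W603.BP Pool.Agent.Helper4K9.IP
open Pool.Agent.H159R3.NV (L mero_of_diff ci_log jensen_entire avg_le_cod ci_abs T2 T2_mono
  T2_ge_L T2_ge_L0)

variable {N : ℕ}

/-- The mean of `log ‖f‖` on the circle of radius `1 / r`: up to a summand `O(log r)` this is the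
Nevanlinna characteristic near the origin of the holomorphic map to projective space with the vector
`f` of homogeneous coordinates. -/
noncomputable def TP (f : ℂ → Fin (N + 1) → ℂ) (r : ℝ) : ℝ :=
  Real.circleAverage (fun z => Real.log ‖f z⁻¹‖) 0 r

/-- The function `a` is small with respect to the map `f`: for each `ε > 0`, the mean of `log⁺ ‖a‖`
on the circle of radius `1 / r` is at most `ε |T(r)| + O(1 + log r)`, for all `r ≥ 1` outside a set
of finite measure, where `T` is the characteristic of `f`. -/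
def Small (f : ℂ → Fin (N + 1) → ℂ) (a : ℂ → ℂ) : Prop :=
  ∀ ε : ℝ, 0 < ε → ∃ C : ℝ, ∀ᶠ r in cofin, mP a r ≤ ε * |TP f r| + C * (1 + Real.log r)

theorem mP_add {a b : ℂ → ℂ} {δ : ℝ} (hδ : 0 < δ) (ha : AnalyticOnNhd ℂ a (PB δ))
    (hb : AnalyticOnNhd ℂ b (PB δ)) {r : ℝ} (hr : δ⁻¹ < r) :
    mP (fun w => a w + b w) r ≤ mP a r + mP b r + Real.log 2 := by
  have i1 := ci_mP hδ ha hr
  have i2 := ci_mP hδ hb hr
  have i3 : CircleIntegrable (fun z => Real.posLog ‖a z⁻¹‖ + Real.posLog ‖b z⁻¹‖) 0 r := i1.add i2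
  have i4 := ci_mP hδ (a := fun w => a w + b w) (fun w hw => (ha w hw).add (hb w hw)) hr
  have h1 : mP (fun w => a w + b w) r ≤ Real.circleAverage
      (fun z => (Real.posLog ‖a z⁻¹‖ + Real.posLog ‖b z⁻¹‖) + Real.log 2) 0 r := by
    apply Real.circleAverage_mono i4 (i3.add (circleIntegrable_const _ _ _))
    intro z _
    change _ ≤ (Real.posLog ‖a z⁻¹‖ + Real.posLog ‖b z⁻¹‖) + Real.log 2
    exact Real.posLog_norm_add_le _ _
  rw [Real.circleAverage_fun_add i3 (circleIntegrable_const _ _ _), Real.circleAverage_const,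
    Real.circleAverage_fun_add i1 i2] at h1
  exact h1

theorem mP_mul {a b : ℂ → ℂ} {δ : ℝ} (hδ : 0 < δ) (ha : AnalyticOnNhd ℂ a (PB δ))
    (hb : AnalyticOnNhd ℂ b (PB δ)) {r : ℝ} (hr : δ⁻¹ < r) :
    mP (fun w => a w * b w) r ≤ mP a r + mP b r := by
  have i1 := ci_mP hδ ha hr
  have i2 := ci_mP hδ hb hr
  have i4 := ci_mP hδ (a := fun w => a w * b w) (fun w hw => (ha w hw).mul (hb w hw)) hr
  have h1 : mP (fun w => a w * b w) r ≤ Real.circleAverage
      (fun z => Real.posLog ‖a z⁻¹‖ + Real.posLog ‖b z⁻¹‖) 0 r := by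
    apply Real.circleAverage_mono i4 (i1.add i2)
    intro z _
    change _ ≤ Real.posLog ‖a z⁻¹‖ + Real.posLog ‖b z⁻¹‖
    rw [norm_mul]
    exact Real.posLog_mul
  rw [Real.circleAverage_fun_add i1 i2] at h1
  exact h1

/-- The holomorphic functions on the punctured disc of radius `δ` which are small with respect
to `f`. -/
noncomputable def smallRing {δ : ℝ} (hδ : 0 < δ) (f : ℂ → Fin (N + 1) → ℂ) :
    Subalgebra ℂ (ℂ → ℂ) where
  carrier := {a | AnalyticOnNhd ℂ a (ball 0 δ \ {0}) ∧ Small f a}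
  mul_mem' := by
    rintro a b ⟨ha, ha2⟩ ⟨hb, hb2⟩
    refine ⟨ha.mul hb, fun ε hε => ?_⟩
    obtain ⟨C1, h1⟩ := ha2 (ε / 2) (by linarith)
    obtain ⟨C2, h2⟩ := hb2 (ε / 2) (by linarith)
    rw [pb_eq] at ha hb
    refine ⟨C1 + C2, ?_⟩
    filter_upwards [h1, h2, cofin_gt δ⁻¹] with r h3 h4 h5
    refine (mP_mul hδ ha hb h5).trans ?_
    linarith
  add_mem' := by
    rintro a b ⟨ha, ha2⟩ ⟨hb, hb2⟩
    refine ⟨ha.add hb, fun ε hε => ?_⟩
    obtain ⟨C1, h1⟩ := ha2 (ε / 2) (by linarith)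
    obtain ⟨C2, h2⟩ := hb2 (ε / 2) (by linarith)
    rw [pb_eq] at ha hb
    refine ⟨C1 + C2 + Real.log 2, ?_⟩
    filter_upwards [h1, h2, cofin_gt δ⁻¹, cofin_gt 1] with r h3 h4 h5 h6
    refine (mP_add hδ ha hb h5).trans ?_
    have h7 : 0 ≤ Real.log 2 * Real.log r :=
      mul_nonneg (Real.log_nonneg (by norm_num)) (Real.log_nonneg h6.le)
    linarith
  algebraMap_mem' := by
    intro c
    refine ⟨fun _ _ => analyticAt_const, fun ε hε => ⟨Real.posLog ‖c‖, ?_⟩⟩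
    filter_upwards [cofin_gt 1] with r h6
    have h1 : mP (algebraMap ℂ (ℂ → ℂ) c) r = Real.posLog ‖c‖ := by
      unfold mP
      have h2 : (fun z : ℂ => Real.posLog ‖(algebraMap ℂ (ℂ → ℂ) c) z⁻¹‖) =
          fun _ => Real.posLog ‖c‖ := rfl
      rw [h2, Real.circleAverage_const]
    rw [h1]
    have h2 : 0 ≤ Real.posLog ‖c‖ * Real.log r :=
      mul_nonneg Real.posLog_nonneg (Real.log_nonneg h6.le)
    have h3 : 0 ≤ ε * |TP f r| := by positivity
    linarith

theorem mem_smallRing {δ : ℝ} {hδ : 0 < δ} {f : ℂ → Fin (N + 1) → ℂ} {a : ℂ → ℂ} :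
    a ∈ smallRing hδ f ↔ AnalyticOnNhd ℂ a (ball 0 δ \ {0}) ∧ Small f a := Iff.rfl

theorem db_small {δ : ℝ} (hδ : 0 < δ) (hδ1 : δ ≤ 1) (f : ℂ → Fin (N + 1) → ℂ) :
    DBOn (ball 0 δ \ {0}) (smallRing hδ f) := by
  refine ⟨fun b hb z hz => (hb.1 z hz).meromorphicAt, fun b hb => ⟨hb.1.deriv, fun ε hε => ?_⟩⟩
  obtain ⟨ha, ha2⟩ := hb
  rw [pb_eq] at ha
  obtain ⟨C1, hC1, h1⟩ := mP_deriv hδ hδ1 ha
  obtain ⟨C2, h2⟩ := ha2 (ε / 2) (by linarith)
  refine ⟨2 * C2 + C1, ?_⟩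
  filter_upwards [h1, h2] with r h3 h4
  linarith

/-- a pointwise bound for the roots of a polynomial -/
theorem pt_bound {l : ℕ} (a : ℕ → ℂ) (x y : ℂ)
    (h : ∑ d ∈ Finset.range (l + 1), a d * x ^ d * y ^ (l - d) = 0) :
    ‖a l‖ * ‖x‖ ≤ (∑ d ∈ Finset.range (l + 1), ‖a d‖) * ‖y‖ := by
  by_cases h0 : a l = 0
  · rw [h0, norm_zero, zero_mul]
    exact mul_nonneg (Finset.sum_nonneg fun _ _ => norm_nonneg _) (norm_nonneg _)
  have hn : 0 < ‖a l‖ := norm_pos_iff.2 h0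
  rcases Nat.eq_zero_or_pos l with hl | hl
  · exfalso
    apply h0
    rw [hl] at h ⊢
    simpa using h
  · have h1 := Pool.Agent.W603.BPR.root_bound a x y h0 h hl
    rw [Finset.sum_range_succ]
    have h2 : ∑ d ∈ Finset.range l, ‖a d‖ = ‖a l‖ * ∑ d ∈ Finset.range l, ‖a d / a l‖ := by
      rw [Finset.mul_sum]
      refine Finset.sum_congr rfl fun d _ => ?_
      rw [norm_div]
      field_simp
    rw [h2]
    calc ‖a l‖ * ‖x‖ ≤ ‖a l‖ * ((1 + ∑ d ∈ Finset.range l, ‖a d / a l‖) * ‖y‖) :=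
          mul_le_mul_of_nonneg_left h1 hn.le
      _ = _ := by ring

/-- an inequality between continuous functions -/
theorem le_of_cod {δ : ℝ} {u v : ℂ → ℝ} (hu : ContinuousOn u (PB δ)) (hv : ContinuousOn v (PB δ))
    (h : ∀ᶠ z in codiscreteWithin (PB δ), u z ≤ v z) : ∀ w ∈ PB δ, u w ≤ v w := by
  intro w hw
  have hO := (PB_open δ).mem_nhds hw
  have h1 : Tendsto u (𝓝[≠] w) (𝓝 (u w)) :=
    ((hu w hw).continuousAt hO).tendsto.mono_left nhdsWithin_le_nhds
  have h2 : Tendsto v (𝓝[≠] w) (𝓝 (v w)) :=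
    ((hv w hw).continuousAt hO).tendsto.mono_left nhdsWithin_le_nhds
  exact le_of_tendsto_of_tendsto h1 h2 (cd_ev (PB_open δ) h hw)

/-- the leading coefficient of an algebraic relation -/
theorem top_bound {δ : ℝ} (hδ : 0 < δ) {f : ℂ → Fin (N + 1) → ℂ} {u v : ℂ → ℂ}
    (hu : AnalyticOnNhd ℂ u (PB δ)) (hv : AnalyticOnNhd ℂ v (PB δ)) (hv0 : ∃ w ∈ PB δ, v w ≠ 0)
    (h : AlgRatioOn (PB δ) (smallRing hδ f) u v) :
    ∃ (l : ℕ) (b : ℕ → ℂ → ℂ), (∀ k, b k ∈ smallRing hδ f) ∧ (∃ w ∈ PB δ, b l w ≠ 0) ∧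
      ∀ w ∈ PB δ, ‖b l w‖ * ‖u w‖ ≤ (∑ k ∈ Finset.range (l + 1), ‖b k w‖) * ‖v w‖ := by
  classical
  obtain ⟨m, b, hb, ⟨k0, hk0, hbk⟩, hs⟩ := h
  have hban : ∀ k, AnalyticOnNhd ℂ (b k) (PB δ) := by
    intro k
    have := (hb k).1
    rwa [pb_eq] at this
  have hbne : ∀ k, (¬ ∀ᶠ z in codiscreteWithin (PB δ), b k z = 0) → ∃ w ∈ PB δ, b k w ≠ 0 := by
    intro k hk
    by_contra hcon
    push Not at hcon
    apply hk
    filter_upwards [cd_self (Ω := PB δ)] with z hz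
    exact hcon z hz
  let T := (Finset.range (m + 1)).filter fun k => ¬ ∀ᶠ z in codiscreteWithin (PB δ), b k z = 0
  have hT : T.Nonempty :=
    ⟨k0, Finset.mem_filter.mpr ⟨Finset.mem_range.mpr (Nat.lt_succ_of_le hk0), hbk⟩⟩
  set l := T.max' hT with hl
  have hlT : l ∈ T := T.max'_mem hT
  have hlm : l ≤ m := Nat.lt_succ_iff.mp (Finset.mem_range.mp (Finset.mem_filter.mp hlT).1)
  have hbig : ∀ᶠ z in codiscreteWithin (PB δ), ∀ k ∈ Finset.range (m + 1), l < k → b k z = 0 := by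
    rw [Filter.eventually_all_finset]
    intro k hk
    by_cases hlk : l < k
    · have h1 : ∀ᶠ z in codiscreteWithin (PB δ), b k z = 0 := by
        by_contra hcon
        have : k ∈ T := Finset.mem_filter.mpr ⟨hk, hcon⟩
        exact absurd (T.le_max' k this) (not_le.mpr hlk)
      filter_upwards [h1] with z hz _
      exact hz
    · exact Eventually.of_forall fun z h => absurd h hlk
  have hvne : ∀ᶠ z in codiscreteWithin (PB δ), v z ≠ 0 := by
    apply mer_ne (PB_preconn hδ) (fun z hz => (hv z hz).meromorphicAt)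
    intro h0
    obtain ⟨w, hw, hw0⟩ := hv0
    exact hw0 (near_zero (PB_open δ) hw (hv w hw) h0).self_of_nhds
  refine ⟨l, b, hb, hbne l (Finset.mem_filter.mp hlT).2, ?_⟩
  have hcu : ContinuousOn (fun w => ‖b l w‖ * ‖u w‖) (PB δ) :=
    (hban l).continuousOn.norm.mul hu.continuousOn.norm
  have hcv : ContinuousOn (fun w => (∑ k ∈ Finset.range (l + 1), ‖b k w‖) * ‖v w‖) (PB δ) :=
    (continuousOn_finsetSum _ fun k _ => (hban k).continuousOn.norm).mul hv.continuousOn.norm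
  refine le_of_cod hcu hcv ?_
  filter_upwards [hs, hbig, hvne] with z h1 h2 h3
  refine pt_bound (fun k => b k z) (u z) (v z) ?_
  have h4 : v z ^ (m - l) * ∑ k ∈ Finset.range (l + 1), b k z * u z ^ k * v z ^ (l - k) = 0 := by
    rw [← h1, Finset.mul_sum]
    have hsub : Finset.range (l + 1) ⊆ Finset.range (m + 1) := by
      intro k hk
      rw [Finset.mem_range] at hk ⊢
      omega
    rw [← Finset.sum_subset hsub (f := fun k => b k z * u z ^ k * v z ^ (m - k))]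
    · refine Finset.sum_congr rfl fun k hk => ?_
      have hk' : k ≤ l := Nat.lt_succ_iff.mp (Finset.mem_range.mp hk)
      have : m - k = (m - l) + (l - k) := by omega
      rw [this, pow_add]
      ring
    · intro k hk hk'
      have : l < k := by
        rw [Finset.mem_range] at hk'
        omega
      rw [h2 k hk this]
      ring
  exact (mul_eq_zero.1 h4).resolve_left (pow_ne_zero _ h3)

/-- removable singularities, simultaneously at all points of a set -/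
theorem removable' {V : Set ℂ} {f : ℂ → ℂ}
    (hd : ∀ w ∈ V, ∀ᶠ z in 𝓝[≠] w, DifferentiableAt ℂ f z)
    (hb : ∀ w ∈ V, ∃ B : ℝ, ∀ᶠ z in 𝓝[≠] w, ‖f z‖ ≤ B) :
    ∃ s : ℂ → ℂ, AnalyticOnNhd ℂ s V ∧ ∀ w ∈ V, ContinuousAt f w → s w = f w := by
  refine ⟨fun w => limUnder (𝓝[≠] w) f, ?_, ?_⟩
  · intro w hw
    obtain ⟨B, hB⟩ := hb w hw
    obtain ⟨U, hU, hUs⟩ := mem_nhdsWithin_iff_exists_mem_nhds_inter.mp
      ((hd w hw).and hB)
    have hUd : DifferentiableOn ℂ f (U \ {w}) := fun z hz =>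
      (hUs ⟨hz.1, hz.2⟩).1.differentiableWithinAt
    have h1 := Complex.differentiableOn_update_limUnder_of_bddAbove hU hUd
      ⟨B, by rintro _ ⟨z, hz, rfl⟩; exact (hUs ⟨hz.1, hz.2⟩).2⟩
    have h2 : AnalyticAt ℂ (Function.update f w (limUnder (𝓝[≠] w) f)) w :=
      h1.analyticAt hU
    apply h2.congr
    filter_upwards [hU] with z hz
    by_cases hzw : z = w
    · rw [hzw, Function.update_self]
    · rw [Function.update_of_ne hzw]
      have h3 : ContinuousAt f z := (hUs ⟨hz, hzw⟩).1.continuousAt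
      exact (h3.tendsto.mono_left nhdsWithin_le_nhds).limUnder_eq.symm
  · intro w _ hc
    exact (hc.tendsto.mono_left nhdsWithin_le_nhds).limUnder_eq

/-- functions on circles -/
theorem cod_circle {a : ℂ → ℂ} {δ : ℝ} (hδ : 0 < δ) (ha : AnalyticOnNhd ℂ a (PB δ))
    (hne : ∃ w ∈ PB δ, a w ≠ 0) {r : ℝ} (hr : δ⁻¹ < r) :
    ∀ᶠ z in codiscreteWithin (sphere (0 : ℂ) |r|), a z⁻¹ ≠ 0 := by
  have hd0 : 0 < δ⁻¹ := inv_pos.2 hδ
  have hF := an_ext hδ ha
  rcases hF.eqOn_zero_or_eventually_ne_zero_of_preconnected (Ext_preconn hd0) with h | h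
  · obtain ⟨w, hw, hw0⟩ := hne
    exfalso
    apply hw0
    have := h (inv_mem_Ext hw)
    simpa using this
  · refine codiscreteWithin_mono (fun z hz => ?_) h
    exact (sph_ext hd0.le hr hz).1

/-- **Growth of curves which are algebraic over the ring of small functions.** -/
theorem growth_of_alg {δ : ℝ} (hδ : 0 < δ) (hδ1 : δ ≤ 1) {f : ℂ → Fin (N + 1) → ℂ}
    (han : ∀ j, AnalyticOnNhd ℂ (fun w => f w j) (PB δ)) (hne : ∀ w ∈ PB δ, f w ≠ 0)
    (halg : ∀ i j, AlgRatioOn (PB δ) (smallRing hδ f) (fun w => f w i) fun w => f w j) :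
    ∃ C : ℝ, 0 ≤ C ∧ ∀ᶠ r in cofin, TP f r ≤ C * (1 + Real.log r) := by
  classical
  obtain ⟨w0, hw0⟩ := PB_nonempty hδ
  obtain ⟨j0, hj0⟩ := Function.ne_iff.1 (hne w0 hw0)
  have hj0' : f w0 j0 ≠ 0 := hj0
  choose l b hb hbl hbd using fun i => top_bound hδ (han i) (han j0) ⟨w0, hw0, hj0'⟩ (halg i j0)
  have hban : ∀ i k, AnalyticOnNhd ℂ (b i k) (PB δ) := by
    intro i k
    have := (hb i k).1
    rwa [pb_eq] at this
  -- the product of the leading coefficients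
  obtain ⟨hβan, hβne⟩ : AnalyticOnNhd ℂ (fun w => ∏ i, b i (l i) w) (PB δ) ∧
      ∃ w ∈ PB δ, ∏ i, b i (l i) w ≠ 0 := by
    constructor
    · intro w hw
      have h1 : AnalyticAt ℂ (∏ i, b i (l i)) w :=
        Finset.analyticAt_prod _ fun i _ => hban i (l i) w hw
      have h2 : (∏ i, b i (l i)) = fun w => ∏ i, b i (l i) w := by
        funext w
        rw [Finset.prod_apply]
      rwa [h2] at h1
    · have h1 : ∀ i, ∀ᶠ z in codiscreteWithin (PB δ), b i (l i) z ≠ 0 := by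
        intro i
        apply mer_ne (PB_preconn hδ) (fun z hz => (hban i (l i) z hz).meromorphicAt)
        intro h0
        obtain ⟨w, hw, hw2⟩ := hbl i
        exact hw2 (near_zero (PB_open δ) hw (hban i (l i) w hw) h0).self_of_nhds
      obtain ⟨w, hw, hw2⟩ := cd_exists (PB_open δ) (PB_nonempty hδ) (eventually_all.2 h1)
      exact ⟨w, hw, Finset.prod_ne_zero_iff.2 fun i _ => hw2 i⟩
  set β : ℂ → ℂ := fun w => ∏ i, b i (l i) w with hβ
  set Φ : ℂ → ℝ := fun w => ∏ i, ∑ k ∈ Finset.range (l i + 1), ‖b i k w‖ with hΦ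
  have hΦc : ContinuousOn Φ (PB δ) :=
    continuousOn_finsetProd _ fun i _ => continuousOn_finsetSum _ fun k _ =>
      (hban i k).continuousOn.norm
  have hfc : ContinuousOn f (PB δ) := continuousOn_pi.2 fun j => (han j).continuousOn
  have hmain : ∀ w ∈ PB δ, ‖β w‖ * ‖f w‖ ≤ Φ w * ‖f w j0‖ := by
    intro w hw
    have h1 : ∀ i, ‖β w‖ * ‖f w i‖ ≤ Φ w * ‖f w j0‖ := by
      intro i
      have e1 : ‖β w‖ = (∏ i' ∈ Finset.univ.erase i, ‖b i' (l i') w‖) * ‖b i (l i) w‖ := by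
        rw [hβ]
        simp only
        rw [norm_prod, Finset.prod_erase_mul _ _ (Finset.mem_univ i)]
      have e2 : Φ w = (∏ i' ∈ Finset.univ.erase i, ∑ k ∈ Finset.range (l i' + 1), ‖b i' k w‖) *
          ∑ k ∈ Finset.range (l i + 1), ‖b i k w‖ := by
        rw [hΦ]
        simp only
        rw [Finset.prod_erase_mul _ _ (Finset.mem_univ i)]
      rw [e1, e2, mul_assoc, mul_assoc]
      have h2 : ∏ i' ∈ Finset.univ.erase i, ‖b i' (l i') w‖ ≤
          ∏ i' ∈ Finset.univ.erase i, ∑ k ∈ Finset.range (l i' + 1), ‖b i' k w‖ := by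
        apply Finset.prod_le_prod (fun _ _ => norm_nonneg _)
        intro i' _
        exact Finset.single_le_sum (f := fun k => ‖b i' k w‖) (fun _ _ => norm_nonneg _)
          (Finset.mem_range.2 (Nat.lt_succ_self _))
      exact mul_le_mul h2 (hbd i w hw) (by positivity)
        (Finset.prod_nonneg fun _ _ => Finset.sum_nonneg fun _ _ => norm_nonneg _)
    have h2 : ‖β w • f w‖ ≤ Φ w * ‖f w j0‖ := by
      rw [pi_norm_le_iff_of_nonneg (mul_nonneg (Finset.prod_nonneg fun _ _ =>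
        Finset.sum_nonneg fun _ _ => norm_nonneg _) (norm_nonneg _))]
      intro i
      rw [Pi.smul_apply, smul_eq_mul, norm_mul]
      exact h1 i
    rwa [norm_smul] at h2
  have hfj : ∀ᶠ z in codiscreteWithin (PB δ), f z j0 ≠ 0 := by
    apply mer_ne (PB_preconn hδ) (fun z hz => (han j0 z hz).meromorphicAt)
    intro h0
    exact hj0' (near_zero (PB_open δ) hw0 (han j0 w0 hw0) h0).self_of_nhds
  -- the quotient is holomorphic
  obtain ⟨s, hs, hsf⟩ := removable' (V := PB δ) (f := fun w => β w / f w j0) (by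
    intro w hw
    filter_upwards [cd_ev (PB_open δ) hfj hw,
      nhdsWithin_le_nhds ((PB_open δ).mem_nhds hw)] with z h1 h2
    exact (hβan z h2).differentiableAt.div (han j0 z h2).differentiableAt h1) (by
    intro w hw
    have hO := (PB_open δ).mem_nhds hw
    have h1 : ContinuousAt (fun z => Φ z / ‖f z‖) w := by
      apply ContinuousAt.div ((hΦc w hw).continuousAt hO) ((hfc w hw).continuousAt hO).norm
      exact norm_ne_zero_iff.2 (hne w hw)
    refine ⟨Φ w / ‖f w‖ + 1, ?_⟩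
    have h2 : ∀ᶠ z in 𝓝 w, Φ z / ‖f z‖ < Φ w / ‖f w‖ + 1 :=
      h1.eventually_lt continuousAt_const (by simp)
    filter_upwards [cd_ev (PB_open δ) hfj hw, nhdsWithin_le_nhds hO,
      nhdsWithin_le_nhds h2] with z h3 h4 h5
    refine le_trans ?_ h5.le
    have h6 : 0 < ‖f z j0‖ := norm_pos_iff.2 h3
    have h7 : 0 < ‖f z‖ := norm_pos_iff.2 (hne z h4)
    rw [norm_div, div_le_div_iff₀ h6 h7]
    exact hmain z h4)
  have hsβ : ∀ w ∈ PB δ, f w j0 ≠ 0 → s w = β w / f w j0 := by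
    intro w hw h0
    exact hsf w hw ((hβan w hw).continuousAt.div (han j0 w hw).continuousAt h0)
  have hsne : ∃ w ∈ PB δ, s w ≠ 0 := by
    have h1 : ∀ᶠ z in codiscreteWithin (PB δ), β z ≠ 0 := by
      apply mer_ne (PB_preconn hδ) (fun z hz => (hβan z hz).meromorphicAt)
      intro h0
      obtain ⟨w, hw, hw2⟩ := hβne
      exact hw2 (near_zero (PB_open δ) hw (hβan w hw) h0).self_of_nhds
    obtain ⟨w, hw, h2, h3⟩ := cd_exists (PB_open δ) (PB_nonempty hδ) (h1.and hfj)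
    exact ⟨w, hw, by rw [hsβ w hw h3]; exact div_ne_zero h2 h3⟩
  have hsΦ : ∀ w ∈ PB δ, ‖s w‖ * ‖f w‖ ≤ Φ w := by
    refine le_of_cod (hs.continuousOn.norm.mul hfc.norm) hΦc ?_
    filter_upwards [hfj, cd_self (Ω := PB δ)] with z h1 h2
    rw [hsβ z h2 h1, norm_div, div_mul_eq_mul_div, div_le_iff₀ (norm_pos_iff.2 h1)]
    exact hmain z h2
  -- mean values
  obtain ⟨C1, hC1, hlow⟩ := low_mean hδ hδ1 hs hsne
  let A : Finset (Σ _ : Fin (N + 1), ℕ) := Finset.univ.sigma fun i => Finset.range (l i + 1)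
  set M : ℝ := A.card + 1 with hM
  have hM0 : 0 < M := by positivity
  choose C2 hC2 using fun p : (Σ _ : Fin (N + 1), ℕ) => (hb p.1 p.2).2 (1 / (2 * M)) (by positivity)
  have hall : ∀ᶠ r in cofin, ∀ p ∈ A, mP (b p.1 p.2) r ≤
      1 / (2 * M) * |TP f r| + C2 p * (1 + Real.log r) := by
    rw [Filter.eventually_all_finset]
    exact fun p _ => hC2 p
  set K : ℝ := ∑ i : Fin (N + 1), Real.log (l i + 1) with hK
  have hK0 : 0 ≤ K := Finset.sum_nonneg fun i _ => Real.log_nonneg (by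
    have : (0 : ℝ) ≤ l i := Nat.cast_nonneg _
    linarith)
  set S : ℝ := ∑ p ∈ A, |C2 p| with hS
  have hS0 : 0 ≤ S := Finset.sum_nonneg fun _ _ => abs_nonneg _
  refine ⟨2 * (K + S + C1), by positivity, ?_⟩
  filter_upwards [hall, hlow, cofin_gt δ⁻¹, cofin_gt 1] with r h1 h2 h3 h4
  have hr0 : 0 < r := by linarith
  have hlr : 0 ≤ Real.log r := Real.log_nonneg h4.le
  have hd0 : 0 < δ⁻¹ := inv_pos.2 hδ
  have ciT : CircleIntegrable (fun z => Real.log ‖f z⁻¹‖) 0 r := by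
    apply ContinuousOn.circleIntegrable hr0.le
    intro z hz
    rw [← abs_of_pos hr0] at hz
    obtain ⟨h5, h6⟩ := sph_ext hd0.le h3 hz
    have h7 := inv_mem_PB hδ h5
    have h8 : ContinuousAt (fun z : ℂ => f z⁻¹) z :=
      ContinuousAt.comp (g := f) (f := fun z : ℂ => z⁻¹)
        ((hfc _ h7).continuousAt ((PB_open δ).mem_nhds h7))
        (continuousAt_inv₀ (ext_ne_zero hd0.le h5))
    exact (h8.norm.log (norm_ne_zero_iff.2 (hne _ h7))).continuousWithinAt
  have ciA : ∀ p ∈ A, CircleIntegrable (fun z => Real.posLog ‖b p.1 p.2 z⁻¹‖) 0 r :=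
    fun p _ => ci_mP hδ (hban p.1 p.2) h3
  have ciS := ci_lP hδ hs h3
  have ciB : CircleIntegrable (fun z => ∑ p ∈ A, Real.posLog ‖b p.1 p.2 z⁻¹‖) 0 r :=
    CircleIntegrable.fun_sum _ ciA
  have ciK : CircleIntegrable (fun z => K + ∑ p ∈ A, Real.posLog ‖b p.1 p.2 z⁻¹‖) 0 r :=
    (circleIntegrable_const _ _ _).add ciB
  have h5 : TP f r ≤ Real.circleAverage (fun z => (K + ∑ p ∈ A, Real.posLog ‖b p.1 p.2 z⁻¹‖) -
      Real.log ‖s z⁻¹‖) 0 r := by
    unfold TP
    apply avg_le_cod ciT (ciK.sub ciS) hr0.ne'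
    filter_upwards [cod_circle hδ hs hsne h3, cod_mem r] with z h6 h7
    obtain ⟨h8, h9⟩ := sph_ext hd0.le h3 h7
    have h10 := inv_mem_PB hδ h8
    change Real.log ‖f z⁻¹‖ ≤ (K + ∑ p ∈ A, Real.posLog ‖b p.1 p.2 z⁻¹‖) - Real.log ‖s z⁻¹‖
    have h11 : 0 < ‖s z⁻¹‖ := norm_pos_iff.2 h6
    have h12 : 0 < ‖f z⁻¹‖ := norm_pos_iff.2 (hne _ h10)
    have h13 : Real.log ‖s z⁻¹‖ + Real.log ‖f z⁻¹‖ ≤ Real.log (Φ z⁻¹) := by
      rw [← Real.log_mul h11.ne' h12.ne']
      exact Real.log_le_log (by positivity) (hsΦ _ h10)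
    have h14 : Real.posLog (Φ z⁻¹) ≤ K + ∑ p ∈ A, Real.posLog ‖b p.1 p.2 z⁻¹‖ := by
      refine (Real.posLog_prod _ _).trans ?_
      rw [hK, Finset.sum_sigma, ← Finset.sum_add_distrib]
      refine Finset.sum_le_sum fun i _ => ?_
      refine (Real.posLog_sum _ _).trans ?_
      rw [Finset.card_range]
      push_cast
      exact le_rfl
    have h15 : Real.log (Φ z⁻¹) ≤ Real.posLog (Φ z⁻¹) :=
      Pool.Agent.H159R3.NV.log_le_posLog _
    linarith
  rw [Real.circleAverage_fun_sub ciK ciS, Real.circleAverage_fun_add (circleIntegrable_const _ _ _)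
    ciB, Real.circleAverage_const, Real.circleAverage_fun_sum ciA] at h5
  have h6 : ∑ p ∈ A, Real.circleAverage (fun z => Real.posLog ‖b p.1 p.2 z⁻¹‖) 0 r ≤
      ∑ p ∈ A, (1 / (2 * M) * |TP f r| + |C2 p| * (1 + Real.log r)) := by
    refine Finset.sum_le_sum fun p hp => (h1 p hp).trans ?_
    have := mul_le_mul_of_nonneg_right (le_abs_self (C2 p)) (by linarith : 0 ≤ 1 + Real.log r)
    linarith
  rw [Finset.sum_add_distrib, Finset.sum_const, nsmul_eq_mul, ← Finset.sum_mul, ← hS] at h6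
  have h7 : (A.card : ℝ) * (1 / (2 * M) * |TP f r|) ≤ 1 / 2 * |TP f r| := by
    have h8 : (A.card : ℝ) * (1 / (2 * M)) ≤ 1 / 2 := by
      rw [mul_one_div, div_le_div_iff₀ (by positivity) (by norm_num)]
      linarith
    calc (A.card : ℝ) * (1 / (2 * M) * |TP f r|) = (A.card : ℝ) * (1 / (2 * M)) * |TP f r| := by ring
      _ ≤ 1 / 2 * |TP f r| := mul_le_mul_of_nonneg_right h8 (abs_nonneg _)
  have h8 : TP f r ≤ 1 / 2 * |TP f r| + (K + S + C1) * (1 + Real.log r) := by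
    have h9 : 0 ≤ K * Real.log r := by positivity
    have h10 : (K + S + C1) * (1 + Real.log r) = K + K * Real.log r + S * (1 + Real.log r) +
      C1 * (1 + Real.log r) := by ring
    rw [h10]
    linarith
  have h9 : 0 ≤ (K + S + C1) * (1 + Real.log r) := by positivity
  rcases le_total 0 (TP f r) with h10 | h10
  · rw [abs_of_nonneg h10] at h8
    linarith
  · linarith

end Pool.Agent.Helper4K9.AP
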