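import Pool.Agent.Helper4K9.AP.Fin

/-!
Functions which are meromorphic at the puncture are small.
-/

set_option autoImplicit false

namespace Pool.Agent.Helper4K9.AP

open MvPolynomial Metric Set Filter Topology FF Pool.Agent.W602.GT Pool.Agent.TH143
  Pool.Agent.TH143.GT Pool.Agent.W603.BP Pool.Agent.W603.BPR Pool.Agent.W603.GR
  Pool.Agent.W603.PV Pool.Agent.Helper4K9.IP

variable {N : ℕ} {Q : MvPolynomial (Fin (N + 1)) ℂ} {q : ℕ} {f : ℂ → Fin (N + 1) → ℂ}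

theorem small_of_mero {b : ℂ → ℂ} (hb : MeromorphicAt b 0) (f : ℂ → Fin (N + 1) → ℂ) :
    Small f b := by
  intro ε hε
  obtain ⟨n, hn⟩ := hb
  have h1 : ∀ᶠ w in 𝓝 (0 : ℂ), ‖(w - 0) ^ n • b w‖ ≤ ‖((0 : ℂ) - 0) ^ n • b 0‖ + 1 := by
    have := hn.continuousAt.norm.eventually (ge_mem_nhds (lt_add_one _))
    exact this
  set M : ℝ := ‖((0 : ℂ) - 0) ^ n • b 0‖ + 1 with hM
  have hM0 : 0 < M := by positivity
  have h2 : ∀ᶠ w in 𝓝 (0 : ℂ), AnalyticAt ℂ (fun w => (w - 0) ^ n • b w) w :=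
    hn.eventually_analyticAt
  obtain ⟨δ, hδ, h3⟩ := Metric.eventually_nhds_iff.1 (h1.and h2)
  refine ⟨Real.posLog M + n, ?_⟩
  filter_upwards [cofin_gt δ⁻¹, cofin_gt 1] with r hr hr1
  have hr0 : 0 < r := by linarith
  have hlr : 0 ≤ Real.log r := Real.log_nonneg hr1.le
  have hpt : ∀ z ∈ sphere (0 : ℂ) |r|, Real.posLog ‖b z⁻¹‖ ≤ Real.posLog M + n * Real.log r := by
    intro z hz
    have hzr : ‖z‖ = r := by
      rw [abs_of_pos hr0] at hz
      simpa using hz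
    have hz0 : z ≠ 0 := by
      intro h0
      rw [h0, norm_zero] at hzr
      linarith
    have h4 : dist z⁻¹ 0 < δ := by
      rw [dist_zero_right, norm_inv, hzr]
      exact inv_lt_of_inv_lt₀ hδ hr
    have h5 := (h3 h4).1
    rw [sub_zero, smul_eq_mul, norm_mul, norm_pow, norm_inv, hzr] at h5
    have h6 : ‖b z⁻¹‖ ≤ M * r ^ n := by
      have h7 : ‖b z⁻¹‖ = (r⁻¹ ^ n * ‖b z⁻¹‖) * r ^ n := by
        rw [inv_pow]
        field_simp
      rw [h7]
      exact mul_le_mul_of_nonneg_right h5 (by positivity)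
    have h8 : Real.posLog ‖b z⁻¹‖ ≤ Real.posLog (M * r ^ n) :=
      Real.posLog_le_posLog (norm_nonneg _) h6
    refine h8.trans (Real.posLog_mul.trans ?_)
    have h9 : Real.posLog (r ^ n) = n * Real.log r := by
      rw [Real.posLog_apply, Real.log_pow]
      exact max_eq_right (by positivity)
    rw [h9]
  have hci : CircleIntegrable (fun z => Real.posLog ‖b z⁻¹‖) 0 r := by
    apply ContinuousOn.circleIntegrable hr0.le
    intro z hz
    have hzr : ‖z‖ = r := by simpa using hz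
    have hz0 : z ≠ 0 := by
      intro h0
      rw [h0, norm_zero] at hzr
      linarith
    have h4 : dist z⁻¹ 0 < δ := by
      rw [dist_zero_right, norm_inv, hzr]
      exact inv_lt_of_inv_lt₀ hδ hr
    have h5 := (h3 h4).2.continuousAt
    have h6 : ContinuousAt (fun w : ℂ => ((w - 0) ^ n)⁻¹ * ((w - 0) ^ n • b w)) z⁻¹ := by
      refine ContinuousAt.mul (ContinuousAt.inv₀ (by fun_prop) ?_) h5
      rw [sub_zero]
      exact pow_ne_zero _ (inv_ne_zero hz0)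
    have h7 : ContinuousAt b z⁻¹ := by
      refine h6.congr ?_
      have h8 : ∀ᶠ w in 𝓝 z⁻¹, w ≠ 0 := isOpen_ne.mem_nhds (inv_ne_zero hz0)
      filter_upwards [h8] with w hw
      rw [sub_zero, smul_eq_mul, ← mul_assoc, inv_mul_cancel₀ (pow_ne_zero _ hw), one_mul]
    have h8 : ContinuousAt (fun z : ℂ => b z⁻¹) z :=
      ContinuousAt.comp (g := b) (f := fun z : ℂ => z⁻¹) h7 (continuousAt_inv₀ hz0)
    have h9 : ContinuousAt (fun z : ℂ => Real.posLog ‖b z⁻¹‖) z :=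
      ContinuousAt.comp (g := Real.posLog) (f := fun z : ℂ => ‖b z⁻¹‖)
        Real.continuous_posLog.continuousAt h8.norm
    exact h9.continuousWithinAt
  have h10 : mP b r ≤ Real.posLog M + n * Real.log r := by
    exact Real.circleAverage_mono_on_of_le_circle hci hpt
  have h11 : 0 ≤ ε * |TP f r| := by positivity
  have h12 : 0 ≤ Real.posLog M := Real.posLog_nonneg
  have h13 : (0 : ℝ) ≤ n := Nat.cast_nonneg n
  nlinarith [mul_nonneg h12 hlr]

/-- functions which are meromorphic at the origin are small -/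
theorem mem_small_of_mero {b : ℂ → ℂ} (hb : MeromorphicAt b 0) (f : ℂ → Fin (N + 1) → ℂ) :
    ∀ᶠ δ in 𝓝[>] (0 : ℝ), ∀ hδ : 0 < δ, b ∈ smallRing hδ f := by
  have h1 := hb.eventually_analyticAt
  rw [eventually_nhdsWithin_iff] at h1
  obtain ⟨r, hr, h2⟩ := Metric.eventually_nhds_iff.1 h1
  filter_upwards [Ioo_mem_nhdsGT hr] with δ hδ' hδ
  refine ⟨fun z hz => ?_, small_of_mero hb f⟩
  have h3 : dist z 0 < r := (mem_ball.1 hz.1).trans hδ'.2
  exact h2 h3 hz.2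

theorem iter_small {r : ℝ} (hr : 0 < r) {g : ℂ → ℂ} (hg : IterOn (PB r) (merDisc r) g)
    (f : ℂ → Fin (N + 1) → ℂ) :
    ∀ᶠ δ in 𝓝[>] (0 : ℝ), ∀ hδ : 0 < δ, IterOn (PB δ) (smallRing hδ f) g := by
  have h0 : (0 : ℂ) ∈ ball (0 : ℂ) r := by simpa using hr
  induction hg with
  | quot h1 h2 =>
    filter_upwards [mem_small_of_mero (h1 0 h0) f, mem_small_of_mero (h2 0 h0) f] with δ h3 h4 hδ
    exact IterOn.quot (h3 hδ) (h4 hδ)
  | add _ _ h1 h2 =>
    filter_upwards [h1, h2] with δ h3 h4 hδ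
    exact IterOn.add (h3 hδ) (h4 hδ)
  | mul _ _ h1 h2 =>
    filter_upwards [h1, h2] with δ h3 h4 hδ
    exact IterOn.mul (h3 hδ) (h4 hδ)
  | @ode n A y _ hy hode i ih =>
    have h1 : ∀ᶠ δ in 𝓝[>] (0 : ℝ), ∀ i j, ∀ hδ : 0 < δ, IterOn (PB δ) (smallRing hδ f) (A i j) :=
      eventually_all.2 fun i => eventually_all.2 fun j => ih i j
    filter_upwards [h1, Ioo_mem_nhdsGT hr] with δ h2 h3 hδ
    have hsub : PB δ ⊆ PB r := fun z hz => ⟨hz.1, hz.2.trans h3.2⟩
    refine IterOn.ode A y (fun i j => h2 i j hδ) (fun i => (hy i).mono_set hsub) ?_ i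
    exact codiscreteWithin_mono hsub hode

/-- curves given by linear equations with coefficients meromorphic at the puncture are
admissible -/
theorem admissible_of_nearZero (h : NearZero Q q f) : Admissible Q q f := by
  obtain ⟨r, hr, -, h1⟩ := h
  rw [pb_eq] at h1
  have hfin : {α : Fin (N + 1) →₀ ℕ | ∑ j, α j = q}.Finite := by
    have h2 : {α : Fin (N + 1) →₀ ℕ | ∑ j, α j = q} ⊆
        ((Finset.univ : Finset (Fin (N + 1))).finsuppAntidiag q : Set (Fin (N + 1) →₀ ℕ)) := by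
      intro α hα
      simp only [Finset.mem_coe, Finset.mem_finsuppAntidiag]
      exact ⟨hα, Finset.subset_univ _⟩
    exact (Finset.finite_toSet _).subset h2
  have h3 : ∀ᶠ δ in 𝓝[>] (0 : ℝ), δ < r ∧ δ ≤ 1 ∧ 0 < δ := by
    filter_upwards [Ioo_mem_nhdsGT (lt_min hr one_pos)] with δ hδ
    exact ⟨hδ.2.trans_le (min_le_left _ _), (hδ.2.trans_le (min_le_right _ _)).le, hδ.1⟩
  rcases Nat.eq_zero_or_pos q with hq | hq
  · obtain ⟨g, hg, hc⟩ := h1.1 hq
    have h4 : ∀ᶠ δ in 𝓝[>] (0 : ℝ), ∀ j, ∀ hδ : 0 < δ, IterOn (PB δ) (smallRing hδ f) (g j) :=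
      eventually_all.2 fun j => iter_small hr (hg j) f
    obtain ⟨δ, h5, h6, h7, h8⟩ := (h4.and h3).exists
    have hsub : PB δ ⊆ PB r := fun z hz => ⟨hz.1, hz.2.trans h6⟩
    refine ⟨δ, h8, h7, fun _ => ⟨g, fun j => ?_, ?_⟩, fun h9 => absurd hq h9⟩
    · rw [pb_eq]
      exact h5 j h8
    · rw [pb_eq]
      exact codiscreteWithin_mono hsub hc
  · have hq0 : q ≠ 0 := hq.ne'
    have h4 : ∀ᶠ δ in 𝓝[>] (0 : ℝ), ∀ α ∈ {α : Fin (N + 1) →₀ ℕ | ∑ j, α j = q},
        ∀ hδ : 0 < δ, IterOn (PB δ) (smallRing hδ f) (regV Q α f) := by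
      rw [eventually_all_finite hfin]
      exact fun α hα => iter_small hr (h1.2 hq0 α hα) f
    obtain ⟨δ, h5, h6, h7, h8⟩ := (h4.and h3).exists
    refine ⟨δ, h8, h7, fun h9 => absurd h9 hq0, fun _ α hα => ?_⟩
    rw [pb_eq]
    exact h5 α hα h8

end Pool.Agent.Helper4K9.AP
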