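import Pool.Agent.Helper4K9.AP.Sup

/-!
Curves which avoid the coordinate hyperplanes are given by linear differential equations with small
coefficients.
-/

set_option autoImplicit false

namespace Pool.Agent.Helper4K9.AP

open MvPolynomial Metric Set Filter Topology FF Pool.Agent.W602.GT Pool.Agent.TH143
  Pool.Agent.TH143.GT Pool.Agent.W603.BP Pool.Agent.W603.BPR Pool.Agent.W603.GR
  Pool.Agent.W603.PV Pool.Agent.Helper4K9.IP
open Pool.Agent.H159R3.NV (L mero_of_diff ci_log jensen_entire avg_le_cod ci_abs T2 T2_mono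
  T2_ge_L T2_ge_L0)

variable {N : ℕ} {Q : MvPolynomial (Fin (N + 1)) ℂ} {q : ℕ} {f : ℂ → Fin (N + 1) → ℂ}

/-- **The lemma on the logarithmic derivative** near a puncture, for functions without zeros -/
theorem mP_logDeriv {a : ℂ → ℂ} {δ : ℝ} (hδ : 0 < δ) (hδ1 : δ ≤ 1) (ha : AnalyticOnNhd ℂ a (PB δ))
    (hne : ∀ w ∈ PB δ, a w ≠ 0) {ε : ℝ} (hε : 0 < ε) :
    ∃ C : ℝ, 0 ≤ C ∧ ∀ᶠ r in cofin, mP (logDeriv a) r ≤ ε * mP a r + C * (1 + Real.log r) := by
  obtain ⟨w0, hw0⟩ := PB_nonempty hδ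
  obtain ⟨s, hs1, hs2, h⟩ := fac_fam (fun _ : Unit => a) hδ hδ1 (fun _ => ha)
    (fun _ => ⟨w0, hw0, hne w0 hw0⟩)
  obtain ⟨H, G, hH, hG, hG0, -, hFG⟩ := h ()
  obtain ⟨C1, hC1, hCH⟩ := tame_log hs1 hH
  obtain ⟨C2, hC2, hCD⟩ := tame_logDeriv hH
  obtain ⟨C3, hC3, hldl⟩ := ldl hG hG0 hε
  have hdan : AnalyticOnNhd ℂ (logDeriv a) (PB δ) := by
    intro w hw
    have h1 : AnalyticAt ℂ (fun w => deriv a w / a w) w := (ha w hw).deriv.div (ha w hw) (hne w hw)
    exact h1
  have hmD : Meromorphic (logDeriv G) := by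
    have h1 : logDeriv G = fun z => deriv G z / G z := by
      funext z
      rfl
    rw [h1]
    intro z
    exact ((mero_of_diff hG z).deriv).div (mero_of_diff hG z)
  have hl2 : 0 ≤ Real.log 2 := Real.log_nonneg (by norm_num)
  have hlC2 : 0 ≤ Real.log C2 := Real.log_nonneg hC2
  refine ⟨2 + Real.log 2 + Real.log C2 + C3 + ε * C1, by positivity, ?_⟩
  filter_upwards [cofin_gt (s + 2), hldl] with r hr hr3
  have hr0 : 0 < r := by linarith
  have hlr : 0 ≤ Real.log r := Real.log_nonneg (by linarith)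
  have ci1 := ci_mP hδ ha (r := r) (by linarith)
  have ci2 : CircleIntegrable (fun z => Real.posLog ‖logDeriv G z‖) 0 r :=
    Pool.Agent.H159R3.NV.ci_posLog hmD r
  -- the proximity function of the entire factor
  have hG1 : mm G r ≤ mP a r + C1 * (1 + Real.log r) := by
    have h1 : mm G r ≤ Real.circleAverage
        (fun z => Real.posLog ‖a z⁻¹‖ + C1 * (1 + Real.log r)) 0 r := by
      apply Real.circleAverage_mono (Pool.Agent.H159R3.NV.ci_posLog (mero_of_diff hG) r)
        (ci1.add (circleIntegrable_const _ _ _))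
      intro z hz
      obtain ⟨h3, h4⟩ := sph_ext (by linarith) (by linarith : s < r) hz
      have h5 := hCH z (by rw [h4]; linarith)
      rw [h4] at h5
      have hHn : 0 < ‖H z‖ := norm_pos_iff.2 (hH.ne z h3)
      have h6 : ‖G z‖ = ‖a z⁻¹‖ * ‖H z‖⁻¹ := by
        rw [hFG z h3, norm_mul]
        field_simp
      rw [h6]
      refine Real.posLog_mul.trans (add_le_add le_rfl ?_)
      rw [Real.posLog_apply]
      refine max_le ((abs_nonneg _).trans h5) ?_
      rw [Real.log_inv]
      exact (neg_le_abs _).trans h5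
    rwa [Real.circleAverage_fun_add ci1 (circleIntegrable_const _ _ _),
      Real.circleAverage_const] at h1
  -- the logarithmic derivative
  have h1 : mP (logDeriv a) r ≤ Real.circleAverage (fun z =>
      (Real.posLog ‖logDeriv G z‖ + (2 * Real.log r + Real.log 2 + Real.log C2))) 0 r := by
    unfold mP
    apply avg_le_cod (ci_mP hδ hdan (by linarith))
      (ci2.add (circleIntegrable_const _ _ _)) hr0.ne'
    filter_upwards [cod_ne hG hG0 r, cod_mem r] with z hz hzs
    obtain ⟨h3, h4⟩ := sph_ext (by linarith) (by linarith : s < r) hzs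
    have hz0 : z ≠ 0 := by
      rw [← norm_pos_iff, h4]
      exact hr0
    have hHz := hH.ne z h3
    have haz := hne z⁻¹ (inv_mem_PB hδ (Ext_mono hs2 h3))
    have e1 : deriv (fun z => a z⁻¹) z = deriv a z⁻¹ * (-(z ^ 2)⁻¹) := by
      have h5 := (ha z⁻¹ (inv_mem_PB hδ (Ext_mono hs2 h3))).differentiableAt.hasDerivAt
      exact (h5.comp z (hasDerivAt_inv hz0)).deriv
    have e2 : deriv (fun z => a z⁻¹) z = deriv (fun z => H z * G z) z := by
      apply Filter.EventuallyEq.deriv_eq
      filter_upwards [(Ext_open s).mem_nhds h3] with w hw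
      exact hFG w hw
    have e3 : deriv (fun z => H z * G z) z = (logDeriv H z + logDeriv G z) * (H z * G z) := by
      have h6 : deriv (fun z => H z * G z) z = deriv H z * G z + H z * deriv G z :=
        deriv_fun_mul (hH.an z h3).differentiableAt (hG z)
      rw [h6, logDeriv_apply, logDeriv_apply]
      field_simp
    have e4 : logDeriv a z⁻¹ = -(z ^ 2) * (logDeriv H z + logDeriv G z) := by
      have h7 : deriv a z⁻¹ * (-(z ^ 2)⁻¹) = (logDeriv H z + logDeriv G z) * (a z⁻¹) := by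
        rw [← e1, e2, e3, hFG z h3]
      have h8 : deriv a z⁻¹ = -(z ^ 2) * (deriv a z⁻¹ * (-(z ^ 2)⁻¹)) := by
        field_simp
      rw [logDeriv_apply, h8, h7, ← mul_assoc, mul_div_cancel_right₀ _ haz]
    change Real.posLog ‖logDeriv a z⁻¹‖ ≤
      (Real.posLog ‖logDeriv G z‖ + (2 * Real.log r + Real.log 2 + Real.log C2))
    rw [e4, norm_mul, norm_neg, norm_pow, h4]
    have p1 : Real.posLog (r ^ 2) = 2 * Real.log r := by
      rw [Real.posLog_apply, Real.log_pow]
      push_cast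
      exact max_eq_right (by positivity)
    have p2 : Real.posLog ‖logDeriv H z + logDeriv G z‖ ≤
        Real.log 2 + (Real.log C2 + Real.posLog ‖logDeriv G z‖) := by
      have h5 : Real.posLog ‖logDeriv H z + logDeriv G z‖ ≤
          Real.posLog ‖logDeriv H z‖ + Real.posLog ‖logDeriv G z‖ + Real.log 2 :=
        Real.posLog_norm_add_le _ _
      have h6 : Real.posLog ‖logDeriv H z‖ ≤ Real.log C2 := by
        have h7 : Real.posLog ‖logDeriv H z‖ ≤ Real.posLog C2 :=
          Real.posLog_le_posLog (norm_nonneg _) (hCD z (by rw [h4]; linarith))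
        have h8 : Real.posLog C2 = Real.log C2 := by
          rw [Real.posLog_apply]
          exact max_eq_right hlC2
        rw [h8] at h7
        exact h7
      linarith
    have p3 : Real.posLog (r ^ 2 * ‖logDeriv H z + logDeriv G z‖) ≤
        Real.posLog (r ^ 2) + Real.posLog ‖logDeriv H z + logDeriv G z‖ := Real.posLog_mul
    rw [p1] at p3
    linarith
  rw [Real.circleAverage_fun_add ci2 (circleIntegrable_const _ _ _),
    Real.circleAverage_const] at h1
  have h5 : 0 ≤ (Real.log 2 + Real.log C2) * Real.log r := by positivity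
  have h6 : (2 + Real.log 2 + Real.log C2 + C3 + ε * C1) * (1 + Real.log r) =
      2 + 2 * Real.log r + (Real.log 2 + Real.log C2) + (Real.log 2 + Real.log C2) * Real.log r +
        C3 * (1 + Real.log r) + ε * (C1 * (1 + Real.log r)) := by ring
  have h7 := mul_le_mul_of_nonneg_left hG1 hε.le
  rw [h6]
  linarith

theorem eval_bound (hQ : Q.IsHomogeneous q) :
    ∃ C : ℝ, 1 ≤ C ∧ ∀ x : Fin (N + 1) → ℂ, ‖eval x Q‖ ≤ C * ‖x‖ ^ q := by
  refine ⟨1 + ∑ d ∈ Q.support, ‖Q.coeff d‖, by
    have : 0 ≤ ∑ d ∈ Q.support, ‖Q.coeff d‖ := Finset.sum_nonneg fun _ _ => norm_nonneg _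
    linarith, fun x => ?_⟩
  have h1 : ‖eval x Q‖ ≤ (∑ d ∈ Q.support, ‖Q.coeff d‖) * ‖x‖ ^ q := by
    rw [eval_eq', Finset.sum_mul]
    refine (norm_sum_le _ _).trans (Finset.sum_le_sum fun d hd => ?_)
    rw [norm_mul, norm_prod]
    refine mul_le_mul_of_nonneg_left ?_ (norm_nonneg _)
    have h2 : ∑ i, d i = q := by
      have := hQ (mem_support_iff.1 hd)
      rw [Finsupp.weight_apply, Finsupp.sum_fintype _ _ (fun _ => by simp)] at this
      simpa using this
    calc ∏ i, ‖x i ^ d i‖ ≤ ∏ i, ‖x‖ ^ d i := by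
          refine Finset.prod_le_prod (fun _ _ => norm_nonneg _) fun i _ => ?_
          rw [norm_pow]
          exact pow_le_pow_left₀ (norm_nonneg _) (norm_le_pi_norm x i) _
      _ = ‖x‖ ^ q := by rw [Finset.prod_pow_eq_pow_sum, h2]
  have h2 : 0 ≤ ‖x‖ ^ q := by positivity
  linarith

/-- zero-free quotients of functions which are bounded by powers of the curve -/
theorem unit_iter (hne : ∀ z ∈ PB 1, f z ≠ 0) (han : ∀ j, AnalyticOnNhd ℂ (fun w => f w j) (PB 1))
    {a b : ℂ → ℂ} (ha : AnalyticOnNhd ℂ a (PB 1)) (hb : AnalyticOnNhd ℂ b (PB 1))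
    (ha0 : ∀ w ∈ PB 1, a w ≠ 0) (hb0 : ∀ w ∈ PB 1, b w ≠ 0) {m : ℕ} {C : ℝ} (hC : 1 ≤ C)
    (haC : ∀ w ∈ PB 1, ‖a w‖ ≤ C * ‖f w‖ ^ m) (hbC : ∀ w ∈ PB 1, ‖b w‖ ≤ C * ‖f w‖ ^ m) :
    IterOn (ball 0 1 \ {0}) (smallRing one_pos f) fun z => a z / b z := by
  set v : ℂ → ℂ := fun z => a z / b z with hv
  have hvan : AnalyticOnNhd ℂ v (PB 1) := fun w hw => (ha w hw).div (hb w hw) (hb0 w hw)
  have hv0 : ∀ w ∈ PB 1, v w ≠ 0 := fun w hw => div_ne_zero (ha0 w hw) (hb0 w hw)
  obtain ⟨w0, hw0⟩ := PB_nonempty one_pos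
  obtain ⟨C1, hC1, hlow⟩ := low_mean one_pos le_rfl hb ⟨w0, hw0, hb0 w0 hw0⟩
  have hfc : ContinuousOn f (PB 1) := continuousOn_pi.2 fun j => (han j).continuousOn
  have hlC : 0 ≤ Real.log C := Real.log_nonneg hC
  -- the growth of `v`
  have hmv : ∀ᶠ r in cofin, mP v r ≤ m * |TP f r| + (Real.log C + C1) * (1 + Real.log r) := by
    filter_upwards [hlow, cofin_gt 1] with r h1 hr
    have hr0 : 0 < r := by linarith
    have hlr : 0 ≤ Real.log r := Real.log_nonneg hr.le
    have hr' : (1 : ℝ)⁻¹ < r := by rwa [inv_one]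
    have ciT : CircleIntegrable (fun z => Real.log ‖f z⁻¹‖) 0 r := by
      apply ContinuousOn.circleIntegrable hr0.le
      intro z hz
      rw [← abs_of_pos hr0] at hz
      obtain ⟨h5, h6⟩ := sph_ext (by norm_num) hr' hz
      have h7 := inv_mem_PB one_pos h5
      have h8 : ContinuousAt (fun z : ℂ => f z⁻¹) z :=
        ContinuousAt.comp (g := f) (f := fun z : ℂ => z⁻¹)
          ((hfc _ h7).continuousAt ((PB_open 1).mem_nhds h7))
          (continuousAt_inv₀ (ext_ne_zero (by norm_num) h5))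
      exact (h8.norm.log (norm_ne_zero_iff.2 (hne _ h7))).continuousWithinAt
    have ciT' : CircleIntegrable (fun z => (m : ℝ) * Real.log ‖f z⁻¹‖) 0 r := by
      have := ciT.const_fun_smul (a := (m : ℝ))
      simpa [smul_eq_mul] using this
    have ciB := ci_lP one_pos hb hr'
    have ciK : CircleIntegrable (fun z => (m : ℝ) * Real.log ‖f z⁻¹‖ + Real.log C) 0 r :=
      ciT'.add (circleIntegrable_const _ _ _)
    have h2 : mP v r ≤ Real.circleAverage (fun z => ((m : ℝ) * Real.log ‖f z⁻¹‖ + Real.log C) -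
        Real.log ‖b z⁻¹‖) 0 r := by
      apply Real.circleAverage_mono (ci_mP one_pos hvan hr') (ciK.sub ciB)
      intro z hz
      obtain ⟨h5, h6⟩ := sph_ext (by norm_num) hr' hz
      have h7 := inv_mem_PB one_pos h5
      have e1 : 0 < ‖a z⁻¹‖ := norm_pos_iff.2 (ha0 _ h7)
      have e2 : 0 < ‖b z⁻¹‖ := norm_pos_iff.2 (hb0 _ h7)
      have e3 : 0 < ‖f z⁻¹‖ := norm_pos_iff.2 (hne _ h7)
      have e4 : Real.log (C * ‖f z⁻¹‖ ^ m) = m * Real.log ‖f z⁻¹‖ + Real.log C := by
        rw [Real.log_mul (by positivity) (by positivity), Real.log_pow]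
        ring
      have e5 := Real.log_le_log e1 (haC _ h7)
      have e6 := Real.log_le_log e2 (hbC _ h7)
      rw [e4] at e5 e6
      change Real.posLog ‖a z⁻¹ / b z⁻¹‖ ≤ ((m : ℝ) * Real.log ‖f z⁻¹‖ + Real.log C) -
        Real.log ‖b z⁻¹‖
      rw [norm_div, Real.posLog_apply, Real.log_div e1.ne' e2.ne']
      exact max_le (by linarith) (by linarith)
    rw [Real.circleAverage_fun_sub ciK ciB, Real.circleAverage_fun_add ciT'
      (circleIntegrable_const _ _ _), Real.circleAverage_const] at h2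
    have h3 : Real.circleAverage (fun z => (m : ℝ) * Real.log ‖f z⁻¹‖) 0 r = m * TP f r := by
      have := Real.circleAverage_fun_smul (a := (m : ℝ)) (f := fun z => Real.log ‖f z⁻¹‖)
        (c := 0) (R := r)
      simp only [smul_eq_mul] at this
      exact this
    rw [h3] at h2
    have h4 : (m : ℝ) * TP f r ≤ m * |TP f r| :=
      mul_le_mul_of_nonneg_left (le_abs_self _) (Nat.cast_nonneg m)
    have h5 : 0 ≤ Real.log C * Real.log r := by positivity
    linarith
  -- its logarithmic derivative is small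
  have hsm : logDeriv v ∈ smallRing one_pos f := by
    refine mem_smallRing.2 ⟨?_, fun ε hε => ?_⟩
    · rw [pb_eq]
      intro w hw
      have h1 : AnalyticAt ℂ (fun w => deriv v w / v w) w :=
        (hvan w hw).deriv.div (hvan w hw) (hv0 w hw)
      exact h1
    · have hm1 : (0 : ℝ) < m + 1 := by positivity
      obtain ⟨C2, hC2, h1⟩ := mP_logDeriv one_pos le_rfl hvan hv0 (ε := ε / (m + 1)) (by positivity)
      refine ⟨ε / (m + 1) * (Real.log C + C1) + C2, ?_⟩
      filter_upwards [h1, hmv] with r h2 h3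
      have h4 : 0 ≤ ε / ((m : ℝ) + 1) := by positivity
      have h5 := mul_le_mul_of_nonneg_left h3 h4
      have h6 : ε / ((m : ℝ) + 1) * (m * |TP f r|) ≤ ε * |TP f r| := by
        have h7 : ε / ((m : ℝ) + 1) * m ≤ ε := by
          rw [div_mul_eq_mul_div, div_le_iff₀ hm1]
          nlinarith
        calc ε / ((m : ℝ) + 1) * (m * |TP f r|) = ε / ((m : ℝ) + 1) * m * |TP f r| := by ring
          _ ≤ _ := mul_le_mul_of_nonneg_right h7 (abs_nonneg _)
      calc mP (logDeriv v) r ≤ ε / (m + 1) * mP v r + C2 * (1 + Real.log r) := h2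
        _ ≤ ε / (m + 1) * (m * |TP f r| + (Real.log C + C1) * (1 + Real.log r)) +
            C2 * (1 + Real.log r) := by linarith
        _ = ε / (m + 1) * (m * |TP f r|) +
            (ε / (m + 1) * (Real.log C + C1) + C2) * (1 + Real.log r) := by ring
        _ ≤ _ := by linarith
  have hA : IterOn (ball 0 1 \ {0}) (smallRing one_pos f) fun z => logDeriv v z / 1 :=
    IterOn.quot hsm (smallRing one_pos f).one_mem
  refine IterOn.ode (fun (_ _ : Fin 1) z => logDeriv v z / 1) (fun _ => v) (fun _ _ => hA)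
    (fun _ => ?_) ?_ 0
  · rw [pb_eq]
    exact fun w hw => (hvan w hw).meromorphicAt
  · rw [pb_eq]
    filter_upwards [cd_self (Ω := PB 1)] with w hw _
    rw [Fin.sum_univ_one, div_one]
    have h1 := (hvan w hw).differentiableAt.hasDerivAt
    refine h1.congr_deriv ?_
    rw [logDeriv_apply]
    have := hv0 w hw
    field_simp

/-- **Curves which avoid the coordinate hyperplanes are admissible.** -/
theorem admissible_of_units (hQ : Q.IsHomogeneous q)
    (han : ∀ j, AnalyticOnNhd ℂ (fun w => f w j) (PB 1)) (hX : ∀ z ∈ PB 1, eval (f z) Q ≠ 0)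
    (hu : ∀ z ∈ PB 1, ∀ j, f z j ≠ 0) : Admissible Q q f := by
  have hne : ∀ z ∈ PB 1, f z ≠ 0 := fun z hz h0 => hu z hz 0 (congrFun h0 0)
  refine ⟨1, one_pos, le_rfl, fun _ => ?_, fun _ α hα => ?_⟩
  · refine ⟨fun j z => f z j / f z 0, fun j => ?_, ?_⟩
    · exact unit_iter hne han (han j) (han 0) (fun w hw => hu w hw j) (fun w hw => hu w hw 0)
        (m := 1) le_rfl (fun w _ => by rw [one_mul, pow_one]; exact norm_le_pi_norm _ _)
        (fun w _ => by rw [one_mul, pow_one]; exact norm_le_pi_norm _ _)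
    · rw [pb_eq]
      filter_upwards [cd_self (Ω := PB 1)] with w hw
      exact ⟨(f w 0)⁻¹, inv_ne_zero (hu w hw 0), fun j => by rw [div_eq_inv_mul]⟩
  · obtain ⟨C, hC, hCQ⟩ := eval_bound hQ
    refine unit_iter hne han (a := fun z => ∏ j, f z j ^ α j) (b := fun z => eval (f z) Q) ?_
      (eval_an' han Q) (fun w hw => Finset.prod_ne_zero_iff.2 fun j _ => pow_ne_zero _ (hu w hw j))
      hX (m := q) hC (fun w _ => ?_) (fun w _ => hCQ _)
    · intro w hw
      have h1 : AnalyticAt ℂ (∏ j, fun z => f z j ^ α j) w :=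
        Finset.analyticAt_prod _ fun j _ => (han j w hw).fun_pow (α j)
      have h2 : (∏ j, fun z => f z j ^ α j) = fun z => ∏ j, f z j ^ α j := by
        funext z
        rw [Finset.prod_apply]
      rwa [h2] at h1
    · rw [norm_prod]
      have h1 : ∏ i, ‖f w i ^ α i‖ ≤ ‖f w‖ ^ q := by
        calc ∏ i, ‖f w i ^ α i‖ ≤ ∏ i, ‖f w‖ ^ α i := by
              refine Finset.prod_le_prod (fun _ _ => norm_nonneg _) fun i _ => ?_
              rw [norm_pow]
              exact pow_le_pow_left₀ (norm_nonneg _) (norm_le_pi_norm (f w) i) _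
          _ = ‖f w‖ ^ q := by rw [Finset.prod_pow_eq_pow_sum, hα]
      have h2 : 0 ≤ ‖f w‖ ^ q := by positivity
      nlinarith

end Pool.Agent.Helper4K9.AP
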